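import Mathlib

set_option autoImplicit false

namespace Pool.Agent.H39.SIT

open MulAction

/-- A Sylow 2-subgroup is transitive on an orbit of 2-power length. -/
theorem sylow_orbit {G α : Type*} [Group G] [Finite G] [MulAction G α] (x : α) (e : ℕ)
    (hx : Nat.card (orbit G x) = 2 ^ e) (P : Sylow 2 G) :
    ∀ y ∈ orbit G x, ∃ g ∈ (P : Subgroup G), g • x = y := by
  classical
  have : Fact (Nat.Prime 2) := ⟨Nat.prime_two⟩
  have := Fintype.ofFinite G
  have : Finite (orbit G x) := Nat.finite_of_card_ne_zero (by rw [hx]; positivity)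
  have h1 : Nat.card (orbit G x) * Nat.card (stabilizer G x) = Nat.card G := by
    have := Nat.card_congr (orbitProdStabilizerEquivGroup G x)
    rwa [Nat.card_prod] at this
  have h2 : Nat.card (orbit P x) * Nat.card (stabilizer P x) = Nat.card P := by
    have := Nat.card_congr (orbitProdStabilizerEquivGroup P x)
    rwa [Nat.card_prod] at this
  have hS : Nat.card (stabilizer G x) ≠ 0 := Nat.card_pos.ne'
  obtain ⟨s, t, ht, hst⟩ := Nat.exists_eq_two_pow_mul_odd hS
  have h3 : 2 ^ (e + s) ∣ Nat.card P := by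
    apply Sylow.pow_dvd_card_of_pow_dvd_card
    rw [← h1, hx, hst, pow_add]
    exact ⟨t, by ring⟩
  have h4 : Nat.card (stabilizer P x) ∣ Nat.card (stabilizer G x) := by
    have : Nat.card (stabilizer P x) = Nat.card ((stabilizer P x).map (P : Subgroup G).subtype) :=
      (Subgroup.card_map_of_injective (Subgroup.subtype_injective _)).symm
    rw [this]
    apply Subgroup.card_dvd_of_le
    rintro g ⟨p, hp, rfl⟩
    exact hp
  have h5 : ∃ i, Nat.card (stabilizer P x) = 2 ^ i := by
    have := P.isPGroup'.to_subgroup (stabilizer P x)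
    exact this.exists_card_eq
  obtain ⟨i, hi⟩ := h5
  have h6 : 2 ^ i ∣ 2 ^ s := by
    rw [hi, hst] at h4
    exact (Nat.Coprime.pow_left i ((Nat.coprime_two_left).2 ht)).dvd_of_dvd_mul_right h4
  have h7 : 2 ^ e ≤ Nat.card (orbit P x) := by
    have h8 : 2 ^ (e + s) ≤ Nat.card P := Nat.le_of_dvd Nat.card_pos h3
    rw [← h2, hi] at h8
    have h9 : 2 ^ i ≤ 2 ^ s := Nat.le_of_dvd (by positivity) h6
    by_contra hlt
    push Not at hlt
    have : Nat.card (orbit P x) * 2 ^ i < 2 ^ e * 2 ^ s :=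
      Nat.mul_lt_mul_of_lt_of_le hlt h9 (by positivity)
    rw [← pow_add] at this
    omega
  have h8 : (orbit P x) ⊆ (orbit G x) := by
    rintro y ⟨p, rfl⟩
    exact ⟨p.1, rfl⟩
  have h9 : (orbit P x) = (orbit G x) := by
    apply Set.eq_of_subset_of_ncard_le h8
    rw [← Nat.card_coe_set_eq, ← Nat.card_coe_set_eq, hx]; exact h7
  intro y hy
  rw [← h9] at hy
  obtain ⟨p, rfl⟩ := hy
  exact ⟨p.1, p.2, rfl⟩

/-- Arithmetic of the parameters. -/
theorem arith (q r p : ℕ) (hr : 1 ≤ r) (hp : 0 < p) (hpq : p < 2 ^ q) (h : p * (2 ^ q - p) = 2 ^ r - 1) :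
    (p = 1 ∧ q = r) ∨ (p = 2 ^ q - 1 ∧ q = r) ∨ (r + 2 = 2 * q) := by
  have hq : 1 ≤ q := by
    rcases Nat.eq_zero_or_pos q with h0 | h0
    · subst h0; simp at hpq; omega
    · exact h0
  obtain ⟨m, hm⟩ : ∃ m, 2 ^ q = p + m := ⟨2 ^ q - p, by omega⟩
  have hm0 : 0 < m := by omega
  have h' : p * m = 2 ^ r - 1 := by rw [← h]; congr 1; omega
  have hr2 : 2 ≤ 2 ^ r := by
    calc 2 = 2 ^ 1 := rfl
      _ ≤ 2 ^ r := Nat.pow_le_pow_right (by norm_num) hr
  have h1 : p * m + 1 = 2 ^ r := by omega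
  have hqr : q ≤ r := by
    by_contra hlt
    push Not at hlt
    have h2 : 2 ^ (r + 1) ≤ 2 ^ q := Nat.pow_le_pow_right (by norm_num) hlt
    have : p + m ≤ p * m + 1 := by nlinarith
    rw [pow_succ] at h2
    omega
  -- 2 ^ q divides p ^ 2 - 1
  have h2 : (2 : ℤ) ^ q ∣ ((p : ℤ) - 1) * (p + 1) := by
    have e1 : ((p : ℤ) - 1) * (p + 1) = p * (2 ^ q) - 2 ^ r := by
      have : (2 : ℤ) ^ q = p + m := by exact_mod_cast hm
      have h3 : (p : ℤ) * m + 1 = 2 ^ r := by exact_mod_cast h1
      rw [this, ← h3]; ring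
    rw [e1]
    exact dvd_sub (dvd_mul_left _ _) (pow_dvd_pow _ hqr)
  have hpo : Odd p := by
    have : Odd (p * m) := by
      rw [h', Nat.odd_iff]
      obtain ⟨r', rfl⟩ : ∃ r', r = r' + 1 := ⟨r - 1, by omega⟩
      rw [pow_succ]
      have : 0 < 2 ^ r' := by positivity
      omega
    exact (Nat.odd_mul.1 this).1
  obtain ⟨j, hj⟩ := hpo
  -- p = 2 j + 1,  (p-1)(p+1) = 4 j (j+1)
  obtain ⟨q', rfl⟩ : ∃ q', q = q' + 1 := ⟨q - 1, by omega⟩
  have h3 : (2 : ℤ) ^ q' ∣ (j : ℤ) * (j + 1) * 2 := by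
    have : ((p : ℤ) - 1) * (p + 1) = 2 * ((j : ℤ) * (j + 1) * 2) := by
      rw [hj]; push_cast; ring
    rw [this, pow_succ, mul_comm ((2 : ℤ) ^ q') 2] at h2
    exact (mul_dvd_mul_iff_left (by norm_num)).1 h2
  have h3' : 2 ^ q' ∣ j * (j + 1) * 2 := by exact_mod_cast h3
  have hj2 : 2 * j + 1 < 2 ^ (q' + 1) := by omega
  rw [pow_succ] at hj2
  have hjq : j < 2 ^ q' := by omega
  rcases Nat.eq_zero_or_pos q' with hq0 | hq0
  · subst hq0
    simp at hjq
    subst hjq
    have : p = 1 := by omega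
    subst this
    left
    refine ⟨rfl, ?_⟩
    have hm1 : m = 1 := by simp at hm; omega
    subst hm1
    have : 2 ^ r = 2 ^ 1 := by omega
    exact (Nat.pow_right_injective (le_refl 2) this).symm
  · obtain ⟨q'', rfl⟩ : ∃ q'', q' = q'' + 1 := ⟨q' - 1, by omega⟩
    have h4 : 2 ^ q'' ∣ j * (j + 1) := by
      rw [pow_succ] at h3'
      exact (Nat.mul_dvd_mul_iff_right (by norm_num)).1 h3'
    have hc : Nat.Coprime j (j + 1) := by simp
    have h5 : 2 ^ q'' ∣ j ∨ 2 ^ q'' ∣ j + 1 := by
      rcases Nat.even_or_odd j with he | ho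
      · left
        have : Nat.Coprime (2 ^ q'') (j + 1) :=
          Nat.Coprime.pow_left _ ((Nat.coprime_two_left).2 he.add_one)
        exact this.dvd_of_dvd_mul_right h4
      · right
        have : Nat.Coprime (2 ^ q'') j := Nat.Coprime.pow_left _ ((Nat.coprime_two_left).2 ho)
        exact this.dvd_of_dvd_mul_left h4
    have hpow : 2 ^ (q'' + 1) = 2 * 2 ^ q'' := by rw [pow_succ]; ring
    have hpow2 : 2 ^ (q'' + 1 + 1) = 4 * 2 ^ q'' := by rw [pow_succ, pow_succ]; ring
    have hA : 0 < 2 ^ q'' := by positivity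
    have fin : ∀ c d : ℕ, c = d → c * d + 1 = 2 ^ r → False → True := fun _ _ _ _ _ => trivial
    rcases h5 with h5 | h5
    · obtain ⟨c, hc'⟩ := h5
      have hc2 : c < 2 := by
        by_contra hge
        push Not at hge
        have : 2 ^ q'' * 2 ≤ 2 ^ q'' * c := Nat.mul_le_mul_left _ hge
        omega
      interval_cases c
      · left
        have : p = 1 := by omega
        subst this
        refine ⟨rfl, ?_⟩
        have : 2 ^ (q'' + 1 + 1) = 2 ^ r := by omega
        exact Nat.pow_right_injective (le_refl 2) this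
      · right; right
        have hp1 : p = 2 * 2 ^ q'' + 1 := by omega
        have hm1 : m + 1 = 2 * 2 ^ q'' := by omega
        have e1 : 2 ^ r = 2 ^ (2 * q'' + 2) := by
          have : 2 ^ (2 * q'' + 2) = 4 * (2 ^ q'' * 2 ^ q'') := by
            rw [pow_add, two_mul, pow_add]; ring
          rw [this, ← h1, hp1]
          obtain ⟨m', hm'⟩ : ∃ m', m' = m := ⟨m, rfl⟩
          have : m = 2 * 2 ^ q'' - 1 := by omega
          zify [show 1 ≤ 2 * 2 ^ q'' by omega] at this ⊢
          rw [this]; ring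
        have := Nat.pow_right_injective (le_refl 2) e1
        omega
    · obtain ⟨c, hc'⟩ := h5
      have hc2 : c < 3 := by
        by_contra hge
        push Not at hge
        have : 2 ^ q'' * 3 ≤ 2 ^ q'' * c := Nat.mul_le_mul_left _ hge
        omega
      interval_cases c
      · omega
      · right; right
        have hp1 : p + 1 = 2 * 2 ^ q'' := by omega
        have hm1 : m = 2 * 2 ^ q'' + 1 := by omega
        have e1 : 2 ^ r = 2 ^ (2 * q'' + 2) := by
          have : 2 ^ (2 * q'' + 2) = 4 * (2 ^ q'' * 2 ^ q'') := by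
            rw [pow_add, two_mul, pow_add]; ring
          rw [this, ← h1, hm1]
          have : p = 2 * 2 ^ q'' - 1 := by omega
          zify [show 1 ≤ 2 * 2 ^ q'' by omega] at this ⊢
          rw [this]; ring
        have := Nat.pow_right_injective (le_refl 2) e1
        omega
      · right; left
        have hp1 : p = 2 ^ (q'' + 1 + 1) - 1 := by omega
        refine ⟨hp1, ?_⟩
        have hm1 : m = 1 := by omega
        subst hm1
        have : 2 ^ (q'' + 1 + 1) = 2 ^ r := by omega
        exact Nat.pow_right_injective (le_refl 2) this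

end Pool.Agent.H39.SIT
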