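import Mathlib
import Pool.Agent.H39.SIT.Group

set_option autoImplicit false

namespace Pool.Agent.H39.SIT

open Finset

/-- the point set `F_2^n` -/
abbrev V (n : ℕ) := Fin n → ZMod 2

/-- affine maps over `F_2`: maps compatible with sums of three points -/
def Aff {A B : Type*} [Add A] [Add B] (h : A → B) : Prop :=
  ∀ x y z, h (x + y + z) = h x + h y + h z

theorem zadd (a : ZMod 2) : a + a = 0 := by revert a; decide

theorem vadd {n : ℕ} (x : V n) : x + x = 0 := by
  ext i; exact zadd (x i)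

theorem vadd_add {n : ℕ} (x y : V n) : x + y + y = x := by
  rw [add_assoc, vadd, add_zero]

theorem add_vadd {n : ℕ} (x y : V n) : x + (x + y) = y := by
  rw [← add_assoc, vadd, zero_add]

theorem vadd_eq {n : ℕ} {x y z : V n} (h : x + y = z) : y = x + z := by
  rw [← h, add_vadd]

theorem z01 (a : ZMod 2) : a = 0 ∨ a = 1 := by revert a; decide

theorem zne {a : ZMod 2} (h : a ≠ 0) : a = 1 := (z01 a).resolve_left h

/-- the sign character -/
def chi (a : ZMod 2) : ℤ := if a = 0 then 1 else -1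

theorem chi_add (a b : ZMod 2) : chi (a + b) = chi a * chi b := by
  revert a b; decide

theorem chi_zero : chi 0 = 1 := rfl
theorem chi_one : chi 1 = -1 := rfl

theorem chi_mul_self (a : ZMod 2) : chi a * chi a = 1 := by
  revert a; decide

theorem sum_shift {n : ℕ} (g : V n → ℤ) (t : V n) : ∑ w, g (w + t) = ∑ w, g w :=
  Fintype.sum_equiv (Equiv.addRight t) _ _ fun _ => rfl

theorem sum_flip {n : ℕ} (g : V n → ℤ) (t : V n) (h : ∀ w, g (w + t) = - g w) :
    ∑ w, g w = 0 := by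
  have h1 := sum_shift g t
  rw [Finset.sum_congr rfl fun w _ => h w, Finset.sum_neg_distrib] at h1
  omega

theorem card_V (n : ℕ) : Fintype.card (V n) = 2 ^ n := by
  simp [V]

/-- dot product -/
def dot {n : ℕ} (w x : V n) : ZMod 2 := ∑ i, w i * x i

theorem dot_add {n : ℕ} (w x y : V n) : dot w (x + y) = dot w x + dot w y := by
  simp [dot, mul_add, Finset.sum_add_distrib]

theorem add_dot {n : ℕ} (w v x : V n) : dot (w + v) x = dot w x + dot v x := by
  simp [dot, add_mul, Finset.sum_add_distrib]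

theorem dot_zero {n : ℕ} (w : V n) : dot w 0 = 0 := by simp [dot]

theorem zero_dot {n : ℕ} (x : V n) : dot 0 x = 0 := by simp [dot]

theorem exists_dot {n : ℕ} {z : V n} (hz : z ≠ 0) : ∃ e : V n, dot e z = 1 := by
  obtain ⟨i, hi⟩ := Function.ne_iff.1 hz
  refine ⟨Pi.single i 1, ?_⟩
  simp only [dot]
  rw [Finset.sum_eq_single i]
  · simp; exact zne hi
  · intro j _ hj; simp [Pi.single_eq_of_ne hj]
  · simp

theorem orth {n : ℕ} (x y : V n) :
    ∑ w : V n, chi (dot w x) * chi (dot w y) = if x = y then 2 ^ n else 0 := by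
  by_cases h : x = y
  · subst h
    simp [chi_mul_self]
  · rw [if_neg h]
    have hz : x + y ≠ 0 := by
      intro h0
      apply h
      have := vadd_eq h0
      rw [add_zero] at this
      exact this.symm
    obtain ⟨e, he⟩ := exists_dot hz
    apply sum_flip _ e
    intro w
    rw [← chi_add, ← chi_add, ← dot_add, ← dot_add, add_dot, he, chi_add, chi_one]
    ring

variable {n : ℕ} (γ : Finset (V n))

/-- `u` is a period of `γ` -/
def Per (u : V n) : Prop := ∀ z, z + u ∈ γ ↔ z ∈ γ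

/-- the boundary of `γ` in direction `d` -/
def bd (d : V n) : Finset (V n) := γ.filter fun x => x + d ∉ γ

open Classical in
/-- the set of periods -/
noncomputable def U : Finset (V n) := univ.filter fun u => Per γ u

/-- transitivity of the affine stabiliser of `γ` on `γ × γᶜ` -/
def Tr : Prop := ∀ x ∈ γ, ∀ y, y ∉ γ → ∀ x' ∈ γ, ∀ y', y' ∉ γ →
  ∃ h : Equiv.Perm (V n), Aff h ∧ (∀ z, h z ∈ γ ↔ z ∈ γ) ∧ h x = x' ∧ h y = y'

/-- the character sum over `γ` -/
def s (φ : V n → ZMod 2) : ℤ := ∑ x ∈ γ, chi (φ x)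

variable {γ}

theorem mem_U {u : V n} : u ∈ U γ ↔ Per γ u := by simp [U]

theorem per_zero : Per γ 0 := fun z => by rw [add_zero]

theorem per_add {u v : V n} (hu : Per γ u) (hv : Per γ v) : Per γ (u + v) := fun z => by
  rw [← add_assoc, hv, hu]

theorem mem_bd {d x : V n} : x ∈ bd γ d ↔ x ∈ γ ∧ x + d ∉ γ := by simp [bd]

theorem bd_nonempty {d : V n} (hd : ¬ Per γ d) : (bd γ d).Nonempty := by
  simp only [Per, not_forall] at hd
  obtain ⟨z, hz⟩ := hd
  by_cases h : z ∈ γ
  · refine ⟨z, mem_bd.2 ⟨h, fun h' => hz ⟨fun _ => h, fun _ => h'⟩⟩⟩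
  · refine ⟨z + d, mem_bd.2 ⟨?_, ?_⟩⟩
    · by_contra h'
      exact hz ⟨fun a => absurd a h', fun a => absurd a h⟩
    · rw [vadd_add]; exact h

theorem bd_of_per {d : V n} (hd : Per γ d) : bd γ d = ∅ := by
  ext x
  simp only [mem_bd, notMem_empty, iff_false, not_and, not_not]
  exact fun h => (hd x).2 h

/-- the moving map between two directions -/
theorem Tr.move (htr : Tr γ) {d d' x x' : V n} (hx : x ∈ bd γ d) (hx' : x' ∈ bd γ d') :
    ∃ h : Equiv.Perm (V n), Aff h ∧ (∀ z, h z ∈ γ ↔ z ∈ γ) ∧ h x = x' ∧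
      ∀ z, h (z + d) = h z + d' := by
  rw [mem_bd] at hx hx'
  obtain ⟨h, h1, h2, h3, h4⟩ := htr x hx.1 (x + d) hx.2 x' hx'.1 (x' + d') hx'.2
  refine ⟨h, h1, h2, h3, fun z => ?_⟩
  have e : z + d = z + x + (x + d) := by
    rw [← add_assoc, vadd_add]
  rw [e, h1, h3, h4, ← add_assoc, vadd_add]

theorem bd_card_le (htr : Tr γ) {d d' : V n} (hd : ¬ Per γ d) (hd' : ¬ Per γ d') :
    (bd γ d).card ≤ (bd γ d').card := by
  obtain ⟨x, hx⟩ := bd_nonempty hd
  obtain ⟨x', hx'⟩ := bd_nonempty hd'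
  obtain ⟨h, _, h2, _, h4⟩ := htr.move hx hx'
  apply Finset.card_le_card_of_injOn h
  · intro z hz
    rw [mem_coe, mem_bd] at hz ⊢
    refine ⟨(h2 z).2 hz.1, ?_⟩
    rw [← h4, h2]
    exact hz.2
  · exact h.injective.injOn

theorem bd_card_eq (htr : Tr γ) {d d' : V n} (hd : ¬ Per γ d) (hd' : ¬ Per γ d') :
    (bd γ d).card = (bd γ d').card :=
  le_antisymm (bd_card_le htr hd hd') (bd_card_le htr hd' hd)

/-- an affine function is constant iff it has no `t` with `φ t ≠ φ 0` -/
theorem aff_shift {φ : V n → ZMod 2} (hφ : Aff φ) (x d : V n) : φ (x + d) = φ x + (φ d + φ 0) := by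
  have := hφ x d 0
  rw [add_zero] at this
  rw [this, add_assoc]

theorem aff_nonconst {φ : V n → ZMod 2} (hφ : Aff φ) (hc : ∃ x y, φ x ≠ φ y) :
    ∃ t, φ t + φ 0 = 1 := by
  obtain ⟨x, y, hxy⟩ := hc
  refine ⟨x + y, ?_⟩
  have h1 := aff_shift hφ x (x + y)
  rw [add_vadd] at h1
  rcases z01 (φ (x + y) + φ 0) with h | h
  · rw [h, add_zero] at h1; exact absurd h1.symm hxy
  · exact h

theorem sum_chi_lin {φ : V n → ZMod 2} (hφ : Aff φ) (hc : ∃ x y, φ x ≠ φ y) :
    ∑ d, chi (φ d + φ 0) = 0 := by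
  obtain ⟨t, ht⟩ := aff_nonconst hφ hc
  apply sum_flip _ t
  intro w
  rw [aff_shift hφ w t, ht, add_right_comm, chi_add, chi_one]
  ring

theorem s_sq_gen {φ : V n → ZMod 2} (hφ : Aff φ) :
    s γ φ ^ 2 = ∑ d, chi (φ d + φ 0) * ((γ.card : ℤ) - (bd γ d).card) := by
  classical
  have h1 : ∀ d : V n, ((γ.card : ℤ) - (bd γ d).card) = ∑ x ∈ γ, if x + d ∈ γ then (1 : ℤ) else 0 := by
    intro d
    have := Finset.card_filter_add_card_filter_not (s := γ) (fun x => x + d ∈ γ)
    have h2 : (bd γ d).card = (γ.filter fun x => ¬ x + d ∈ γ).card := rfl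
    rw [Finset.sum_boole, h2]
    push_cast [← this]
    ring
  simp only [h1, Finset.mul_sum]
  rw [Finset.sum_comm, sq, s, Finset.sum_mul_sum]
  apply Finset.sum_congr rfl
  intro x _
  have h2 : ∑ d, chi (φ d + φ 0) * (if x + d ∈ γ then (1 : ℤ) else 0) =
      ∑ y, chi (φ (x + y) + φ 0) * (if y ∈ γ then (1 : ℤ) else 0) := by
    rw [← Equiv.sum_comp (Equiv.addLeft x) (fun d => chi (φ d + φ 0) * (if x + d ∈ γ then (1 : ℤ) else 0))]
    apply Finset.sum_congr rfl
    intro y _
    simp only [Equiv.coe_addLeft, add_vadd]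
  rw [h2, ← Finset.sum_filter_add_sum_filter_not univ (fun y => y ∈ γ)]
  have h3 : ∑ y ∈ univ.filter (fun y => ¬ y ∈ γ), chi (φ (x + y) + φ 0) *
      (if y ∈ γ then (1 : ℤ) else 0) = 0 := by
    apply Finset.sum_eq_zero
    intro y hy
    rw [if_neg (Finset.mem_filter.1 hy).2, mul_zero]
  rw [h3, add_zero]
  have h4 : univ.filter (fun y => y ∈ γ) = γ := by ext; simp
  rw [h4]
  apply Finset.sum_congr rfl
  intro y hy
  rw [if_pos hy, mul_one, aff_shift hφ x y, add_assoc, add_assoc, zadd, add_zero, chi_add]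

theorem s_sq (htr : Tr γ) {φ : V n → ZMod 2} (hφ : Aff φ) (hU : ∀ u, Per γ u → ∀ x, φ (x + u) = φ x)
    (hc : ∃ x y, φ x ≠ φ y) {d₀ : V n} (hd₀ : ¬ Per γ d₀) :
    s γ φ ^ 2 = (U γ).card * (bd γ d₀).card := by
  classical
  rw [s_sq_gen hφ]
  have h1 : ∀ d : V n, ((γ.card : ℤ) - (bd γ d).card) = ((γ.card : ℤ) - (bd γ d₀).card) +
      (if d ∈ U γ then ((bd γ d₀).card : ℤ) else 0) := by
    intro d
    by_cases hd : Per γ d
    · rw [if_pos (mem_U.2 hd), bd_of_per hd]; simp
    · rw [if_neg (fun h => hd (mem_U.1 h)), bd_card_eq htr hd hd₀]; ring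
  rw [Finset.sum_congr rfl fun d _ => by rw [h1 d, mul_add], Finset.sum_add_distrib,
    ← Finset.sum_mul, sum_chi_lin hφ hc, zero_mul, zero_add]
  simp only [mul_ite, mul_zero]
  rw [Finset.sum_ite_mem, Finset.univ_inter]
  have h2 : ∀ d ∈ U γ, chi (φ d + φ 0) * ((bd γ d₀).card : ℤ) = (bd γ d₀).card := by
    intro d hd
    have := hU d (mem_U.1 hd) 0
    rw [zero_add] at this
    rw [this, zadd, chi_zero, one_mul]
  rw [Finset.sum_congr rfl h2, Finset.sum_const, nsmul_eq_mul]

/-- the sum over `γ` of a linear character which is not trivial on the periods vanishes -/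
theorem s_zero {w : V n} {u : V n} (hu : Per γ u) (hw : dot w u = 1) : s γ (dot w) = 0 := by
  have h1 : s γ (dot w) = - s γ (dot w) := by
    rw [s]
    have : ∑ x ∈ γ, chi (dot w x) = ∑ x ∈ γ, chi (dot w (x + u)) := by
      symm
      apply Finset.sum_bij (fun x _ => x + u)
      · intro x hx; exact (hu x).2 hx
      · intro x _ y _ h; exact add_right_cancel h
      · intro y hy
        exact ⟨y + u, (hu y).2 hy, vadd_add y u⟩
      · intro x _; rfl
    conv_lhs => rw [this]
    rw [← Finset.sum_neg_distrib]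
    apply Finset.sum_congr rfl
    intro x _
    rw [dot_add, hw, chi_add, chi_one, mul_neg_one]
  omega

theorem inversion (x : V n) : ∑ w, s γ (dot w) * chi (dot w x) = if x ∈ γ then 2 ^ n else 0 := by
  simp only [s, Finset.sum_mul]
  rw [Finset.sum_comm]
  simp only [orth]
  rw [Finset.sum_ite_eq']

theorem count_bd : ∑ d, ((bd γ d).card : ℤ) = γ.card * (2 ^ n - γ.card) := by
  have h1 : ∀ d : V n, ((bd γ d).card : ℤ) = ∑ x ∈ γ, if x + d ∉ γ then (1 : ℤ) else 0 := by
    intro d; rw [Finset.sum_boole]; rfl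
  simp only [h1]
  rw [Finset.sum_comm]
  have h2 : ∀ x ∈ γ, ∑ d, (if x + d ∉ γ then (1 : ℤ) else 0) = 2 ^ n - γ.card := by
    intro x _
    have h6 := Equiv.sum_comp (Equiv.addLeft x) (fun y => if y ∉ γ then (1 : ℤ) else 0)
    have h7 : ∑ d, (if x + d ∉ γ then (1 : ℤ) else 0) = ∑ y, (if y ∉ γ then (1 : ℤ) else 0) := by
      rw [← h6]
      apply Finset.sum_congr rfl
      intro d _
      by_cases hh : x + d ∈ γ <;> simp [hh]
    rw [h7, Finset.sum_boole]
    have := Finset.card_filter_add_card_filter_not (s := (univ : Finset (V n))) (fun y => y ∈ γ)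
    have h4 : univ.filter (fun y => y ∈ γ) = γ := by ext; simp
    rw [h4, Finset.card_univ, card_V] at this
    have h5 : ((γ.card : ℤ) + (univ.filter fun y => y ∉ γ).card) = 2 ^ n := by exact_mod_cast this
    linarith
  rw [Finset.sum_congr rfl h2, Finset.sum_const, nsmul_eq_mul]

end Pool.Agent.H39.SIT
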