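import Mathlib
import Pool.Agent.H39.SIT.Fourier

set_option autoImplicit false

namespace Pool.Agent.H39.SIT

open Finset

variable {n : ℕ} {γ : Finset (V n)}

/-- the periods as a subspace -/
def Usub (γ : Finset (V n)) : Submodule (ZMod 2) (V n) where
  carrier := {u | Per γ u}
  add_mem' := fun hu hv => per_add hu hv
  zero_mem' := per_zero
  smul_mem' := by
    intro c u hu
    rcases z01 c with h | h
    · subst h; rw [zero_smul]; exact per_zero
    · subst h; rw [one_smul]; exact hu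

theorem aff_lin (f : V n →ₗ[ZMod 2] ZMod 2) : Aff (f : V n → ZMod 2) := by
  intro x y z; rw [map_add, map_add]

theorem aff_dot (w : V n) : Aff (dot w) := by
  intro x y z; rw [dot_add, dot_add]

/-- a non-constant affine function invariant under a proper subspace -/
theorem exists_aff (W : Submodule (ZMod 2) (V n)) {d : V n} (hd : d ∉ W) :
    ∃ φ : V n → ZMod 2, Aff φ ∧ (∀ u ∈ W, ∀ x, φ (x + u) = φ x) ∧ ∃ x y, φ x ≠ φ y := by
  obtain ⟨f, hf, hW⟩ := Submodule.exists_le_ker_of_notMem hd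
  refine ⟨f, aff_lin f, ?_, d, 0, ?_⟩
  · intro u hu x
    have : f u = 0 := hW hu
    rw [map_add, this, add_zero]
  · rw [map_zero]; exact hf

theorem card_U_mul (htr : Tr γ) {d₀ : V n} (hd₀ : ¬ Per γ d₀) :
    ((bd γ d₀).card : ℤ) * (2 ^ n - (U γ).card) = γ.card * (2 ^ n - γ.card) := by
  classical
  rw [← count_bd]
  have h1 : ∀ d : V n, ((bd γ d).card : ℤ) = ((bd γ d₀).card : ℤ) -
      (if d ∈ U γ then ((bd γ d₀).card : ℤ) else 0) := by
    intro d
    by_cases hd : Per γ d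
    · rw [if_pos (mem_U.2 hd), bd_of_per hd]; simp
    · rw [if_neg (fun h => hd (mem_U.1 h)), bd_card_eq htr hd hd₀]; ring
  rw [Finset.sum_congr rfl fun d _ => h1 d, Finset.sum_sub_distrib, Finset.sum_ite_mem,
    Finset.univ_inter, Finset.sum_const, Finset.sum_const, Finset.card_univ, card_V]
  simp only [nsmul_eq_mul]
  push_cast
  ring

theorem params (htr : Tr γ) (hne : γ.Nonempty) (hk : ∃ y, y ∉ γ) {d₀ : V n} (hd₀ : ¬ Per γ d₀) :
    (∃ e, (bd γ d₀).card = 2 ^ e) ∧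
    (γ.card = (U γ).card ∨ γ.card + (U γ).card = 2 ^ n ∨
      (4 * (bd γ d₀).card = 2 ^ n ∧ 4 * (U γ).card ≤ 2 ^ n)) := by
  classical
  obtain ⟨φ, hφ, hφU, hφc⟩ := exists_aff (Usub γ) (show d₀ ∉ Usub γ from hd₀)
  have hS := s_sq htr hφ (fun u hu => hφU u hu) hφc hd₀
  obtain ⟨S, hSdef⟩ : ∃ S : ℕ, S = (s γ φ).natAbs := ⟨_, rfl⟩
  have hS2 : S ^ 2 = (U γ).card * (bd γ d₀).card := by
    have : ((S : ℤ)) ^ 2 = (U γ).card * (bd γ d₀).card := by
      rw [hSdef, ← hS, Int.natCast_natAbs, sq_abs]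
    exact_mod_cast this
  have hNpos : 0 < (bd γ d₀).card := Finset.card_pos.2 (bd_nonempty hd₀)
  have hUpos : 0 < (U γ).card := Finset.card_pos.2 ⟨0, mem_U.2 per_zero⟩
  -- all character sums are divisible by S
  have hw : ∀ w : V n, w ≠ 0 → (S : ℤ) ∣ s γ (dot w) := by
    intro w hw
    by_cases hu : ∀ u, Per γ u → dot w u = 0
    · have hc : ∃ x y, dot w x ≠ dot w y := by
        obtain ⟨i, hi⟩ := Function.ne_iff.1 hw
        refine ⟨Pi.single i 1, 0, ?_⟩
        rw [dot_zero]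
        simp only [dot]
        rw [Finset.sum_eq_single i]
        · simpa using hi
        · intro j _ hj; simp [Pi.single_eq_of_ne hj]
        · simp
      have h1 := s_sq htr (aff_dot w) (fun u hu' x => by rw [dot_add, hu u hu', add_zero]) hc hd₀
      have h2 : (s γ (dot w)) ^ 2 = (S : ℤ) ^ 2 := by
        rw [h1]; exact_mod_cast hS2.symm
      rcases sq_eq_sq_iff_eq_or_eq_neg.1 h2 with h | h <;> rw [h]
      exact (dvd_neg).2 dvd_rfl
    · push Not at hu
      obtain ⟨u, hu1, hu2⟩ := hu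
      rw [s_zero hu1 (zne hu2)]
      exact dvd_zero _
  have hdiv : ∀ x, (S : ℤ) ∣ (if x ∈ γ then 2 ^ n else 0) - γ.card := by
    intro x
    have h0 : s γ (dot 0) * chi (dot 0 x) = γ.card := by
      simp [s, zero_dot, chi_zero]
    rw [← inversion x, ← h0, ← Finset.sum_erase_eq_sub (Finset.mem_univ _)]
    apply Finset.dvd_sum
    intro w hw'
    exact Dvd.dvd.mul_right (hw w (Finset.ne_of_mem_erase hw')) _
  obtain ⟨x₀, hx₀⟩ := hne
  obtain ⟨y₀, hy₀⟩ := hk
  have h1 := hdiv x₀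
  have h2 := hdiv y₀
  rw [if_pos hx₀] at h1
  rw [if_neg hy₀, zero_sub, dvd_neg] at h2
  have h3 : (S : ℤ) ∣ 2 ^ n := by
    have := dvd_add h1 h2
    rwa [sub_add_cancel] at this
  have h2' : S ∣ γ.card := by exact_mod_cast h2
  have h3' : S ∣ 2 ^ n := by exact_mod_cast h3
  obtain ⟨j, hjn, hj⟩ := (Nat.dvd_prime_pow Nat.prime_two).1 h3'
  obtain ⟨p, hp⟩ := h2'
  have hUN : (U γ).card * (bd γ d₀).card = 2 ^ (2 * j) := by
    rw [← hS2, hj, ← pow_mul, mul_comm]
  obtain ⟨t, _, ht⟩ := (Nat.dvd_prime_pow Nat.prime_two).1 (Dvd.intro _ hUN)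
  obtain ⟨e, _, he⟩ := (Nat.dvd_prime_pow Nat.prime_two).1 (Dvd.intro_left _ hUN)
  have hte : t + e = 2 * j := by
    rw [ht, he, ← pow_add] at hUN
    exact Nat.pow_right_injective (le_refl 2) hUN
  refine ⟨⟨e, he⟩, ?_⟩
  have hkpos : 0 < γ.card := Finset.card_pos.2 ⟨x₀, hx₀⟩
  have hklt : γ.card < 2 ^ n := by
    rw [← card_V n, ← Finset.card_univ]
    apply Finset.card_lt_card
    rw [Finset.ssubset_univ_iff]
    intro h
    rw [h] at hy₀
    exact hy₀ (Finset.mem_univ _)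
  have hUlt : (U γ).card < 2 ^ n := by
    rw [← card_V n, ← Finset.card_univ]
    apply Finset.card_lt_card
    rw [Finset.ssubset_univ_iff]
    intro h
    apply hd₀
    rw [← mem_U, h]
    exact Finset.mem_univ _
  have htn : t < n := by
    rw [ht] at hUlt
    exact (Nat.pow_lt_pow_iff_right (by norm_num)).1 hUlt
  have hp0 : 0 < p := by
    rcases Nat.eq_zero_or_pos p with h | h
    · subst h; rw [mul_zero] at hp; omega
    · exact h
  obtain ⟨q, hq⟩ : ∃ q, n = j + q := ⟨n - j, by omega⟩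
  obtain ⟨r, hr⟩ : ∃ r, n = t + r := ⟨n - t, by omega⟩
  have hpq : p < 2 ^ q := by
    rw [hp, hj, hq, pow_add] at hklt
    exact Nat.lt_of_mul_lt_mul_left hklt
  have hmain := card_U_mul htr hd₀
  have hmain' : p * (2 ^ q - p) = 2 ^ r - 1 := by
    have hr1 : 1 ≤ 2 ^ r := Nat.one_le_two_pow
    zify [hpq.le, hr1]
    rw [ht, he, hp, hj] at hmain
    have e1 : (2 : ℤ) ^ n = 2 ^ j * 2 ^ q := by rw [hq, pow_add]
    have e2 : (2 : ℤ) ^ n = 2 ^ t * 2 ^ r := by rw [hr, pow_add]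
    have e3 : (2 : ℤ) ^ e * 2 ^ t = 2 ^ j * 2 ^ j := by
      rw [← pow_add, ← pow_add]; congr 1; omega
    push_cast at hmain
    have e4 : (2 : ℤ) ^ e * (2 ^ n - 2 ^ t) = 2 ^ j * 2 ^ j * (2 ^ r - 1) := by
      rw [e2, ← e3]; ring
    have e5 : (2 : ℤ) ^ j * p * (2 ^ n - 2 ^ j * p) = 2 ^ j * 2 ^ j * (p * (2 ^ q - p)) := by
      rw [e1]; ring
    rw [e4, e5] at hmain
    have hne : (2 : ℤ) ^ j * 2 ^ j ≠ 0 := by positivity
    exact (mul_left_cancel₀ hne hmain).symm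
  rcases arith q r p (by omega) hp0 hpq hmain' with ⟨h, h'⟩ | ⟨h, h'⟩ | h
  · left
    rw [hp, hj, h, ht, mul_one]
    congr 1; omega
  · right; left
    have hjt : j = t := by omega
    rw [hp, hj, h, ht, hjt, hq, hjt, pow_add]
    have : 1 ≤ 2 ^ q := Nat.one_le_two_pow
    obtain ⟨a, ha⟩ : ∃ a, 2 ^ q = a + 1 := ⟨2 ^ q - 1, by omega⟩
    rw [ha, Nat.add_sub_cancel]; ring
  · right; right
    constructor
    · rw [he]
      have : n = e + 2 := by omega
      rw [this, pow_add]; ring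
    · rw [ht]
      have : n = t + 2 + (r - 2) := by omega
      rw [this, pow_add, pow_add]
      have : 1 ≤ 2 ^ (r - 2) := Nat.one_le_two_pow
      nlinarith [show 0 < 2 ^ t by positivity]

end Pool.Agent.H39.SIT
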