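import Mathlib
import Pool.Agent.H39.SIT.Params

set_option autoImplicit false

namespace Pool.Agent.H39.SIT

open Finset MulAction

variable {n : ℕ} {γ : Finset (V n)}

theorem aff_inv {h : Equiv.Perm (V n)} (hh : Aff h) : Aff (h⁻¹ : Equiv.Perm (V n)) := by
  intro x y z
  apply h.injective
  rw [hh]
  simp

/-- the affine permutations that preserve `γ` and commute with the translation by `a` -/
def K (γ : Finset (V n)) (a : V n) : Subgroup (Equiv.Perm (V n)) where
  carrier := {h | Aff h ∧ (∀ z, h z ∈ γ ↔ z ∈ γ) ∧ ∀ z, h (z + a) = h z + a}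
  mul_mem' := by
    rintro g h ⟨g1, g2, g3⟩ ⟨h1, h2, h3⟩
    refine ⟨fun x y z => ?_, fun z => ?_, fun z => ?_⟩
    · simp only [Equiv.Perm.mul_apply, h1 x y z]
      exact g1 _ _ _
    · simp only [Equiv.Perm.mul_apply, g2, h2]
    · simp only [Equiv.Perm.mul_apply, h3, g3]
  one_mem' := ⟨fun _ _ _ => rfl, fun _ => Iff.rfl, fun _ => rfl⟩
  inv_mem' := by
    rintro h ⟨h1, h2, h3⟩
    refine ⟨aff_inv h1, fun z => ?_, fun z => ?_⟩
    · rw [← h2]; simp
    · apply h.injective; rw [h3]; simp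

/-- the affine functions invariant under the periods and `a`, with positive character sum -/
structure W (γ : Finset (V n)) (a : V n) where
  f : V n → ZMod 2
  aff : Aff f
  per : ∀ u, Per γ u → ∀ x, f (x + u) = f x
  shift : ∀ x, f (x + a) = f x
  pos : 0 < s γ f

theorem W.ext' {a : V n} {φ ψ : W γ a} (h : φ.f = ψ.f) : φ = ψ := by
  cases φ; cases ψ; simp only at h; subst h; rfl

instance (a : V n) : Finite (W γ a) :=
  Finite.of_injective (fun φ => φ.f) fun _ _ h => W.ext' h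

theorem s_comp (φ : V n → ZMod 2) {h : Equiv.Perm (V n)} (h2 : ∀ z, h z ∈ γ ↔ z ∈ γ) :
    s γ (fun x => φ (h x)) = s γ φ := by
  rw [s, s]
  apply Finset.sum_bij (fun x _ => h x)
  · intro x hx; exact (h2 x).2 hx
  · intro x _ y _ e; exact h.injective e
  · intro y hy; exact ⟨h⁻¹ y, by rw [← h2]; simpa using hy, by simp⟩
  · intro x _; rfl

theorem per_map {h : Equiv.Perm (V n)} (h1 : Aff h) (h2 : ∀ z, h z ∈ γ ↔ z ∈ γ) {u : V n}
    (hu : Per γ u) : Per γ (h u + h 0) := by
  intro z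
  obtain ⟨w, rfl⟩ := h.surjective z
  have := h1 w u 0
  rw [add_zero] at this
  rw [← add_assoc, ← this, h2, h2, hu]

/-- composition with an element of `K` -/
def W.comp {a : V n} (φ : W γ a) (h : Equiv.Perm (V n)) (hh : h ∈ K γ a) : W γ a where
  f x := φ.f (h x)
  aff x y z := by
    have := hh.1 x y z
    show φ.f (h (x + y + z)) = _
    rw [this, φ.aff]
  per u hu x := by
    have := hh.1 x u 0
    rw [add_zero] at this
    show φ.f (h (x + u)) = _
    rw [this, add_assoc]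
    exact φ.per _ (per_map hh.1 hh.2.1 hu) _
  shift x := by
    show φ.f (h (x + a)) = _
    rw [hh.2.2, φ.shift]
  pos := by
    have := s_comp (γ := γ) φ.f hh.2.1
    rw [this]; exact φ.pos

instance act (a : V n) : MulAction (K γ a) (W γ a) where
  smul h φ := φ.comp ((h⁻¹ : K γ a).1) (h⁻¹ : K γ a).2
  one_smul φ := by
    apply W.ext'
    funext x
    show φ.f (((1 : K γ a)⁻¹ : K γ a).1 x) = φ.f x
    simp
  mul_smul g h φ := by
    apply W.ext'
    funext x
    show φ.f (((g * h)⁻¹ : K γ a).1 x) = φ.f ((h⁻¹ : K γ a).1 ((g⁻¹ : K γ a).1 x))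
    rw [mul_inv_rev]
    rfl

theorem act_apply {a : V n} (h : K γ a) (φ : W γ a) (x : V n) :
    (h • φ).f x = φ.f ((h⁻¹ : K γ a).1 x) := rfl

theorem s_add_one (φ : V n → ZMod 2) : s γ (fun x => φ x + 1) = - s γ φ := by
  rw [s, s, ← Finset.sum_neg_distrib]
  apply Finset.sum_congr rfl
  intro x _
  rw [chi_add, chi_one, mul_neg_one]

theorem s_ne_zero (htr : Tr γ) (hne : γ.Nonempty) {d₀ : V n} (hd₀ : ¬ Per γ d₀)
    {φ : V n → ZMod 2} (hφ : Aff φ) (hU : ∀ u, Per γ u → ∀ x, φ (x + u) = φ x) : s γ φ ≠ 0 := by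
  by_cases hc : ∃ x y, φ x ≠ φ y
  · have h1 := s_sq htr hφ hU hc hd₀
    intro h0
    rw [h0] at h1
    have hN : (0 : ℤ) < (bd γ d₀).card := by exact_mod_cast Finset.card_pos.2 (bd_nonempty hd₀)
    have hU0 : (0 : ℤ) < (U γ).card := by
      exact_mod_cast Finset.card_pos.2 ⟨0, mem_U.2 per_zero⟩
    have := mul_pos hU0 hN
    rw [← h1] at this
    norm_num at this
  · push Not at hc
    have h1 : s γ φ = γ.card * chi (φ 0) := by
      rw [s, Finset.sum_congr rfl fun x _ => by rw [hc x 0], Finset.sum_const, nsmul_eq_mul]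
    have hk : (0 : ℤ) < γ.card := by exact_mod_cast Finset.card_pos.2 hne
    rw [h1]
    rcases z01 (φ 0) with h | h <;> rw [h]
    · rw [chi_zero]; omega
    · rw [chi_one]; omega

open Classical in
theorem even_W (htr : Tr γ) (hne : γ.Nonempty) {a : V n} (ha : ¬ Per γ a)
    {ψ : V n → ZMod 2} (hψ : Aff ψ) (hψU : ∀ u, Per γ u → ∀ x, ψ (x + u) = ψ x)
    (hψa : ∀ x, ψ (x + a) = ψ x) (hψc : ∃ x y, ψ x ≠ ψ y) : 2 ∣ Nat.card (W γ a) := by
  have := Fintype.ofFinite (W γ a)
  have hsum : ∀ φ : W γ a, Aff (fun x => φ.f x + ψ x) := fun φ x y z => by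
    show φ.f _ + ψ _ = _
    rw [φ.aff, hψ x y z]; ring
  have hsum1 : ∀ φ : W γ a, Aff (fun x => φ.f x + ψ x + 1) := fun φ x y z => by
    show φ.f _ + ψ _ + 1 = _
    rw [φ.aff, hψ x y z]
    have : (1 : ZMod 2) = 1 + 1 + 1 := by decide
    linear_combination this
  have hper : ∀ φ : W γ a, ∀ u, Per γ u → ∀ x, φ.f (x + u) + ψ (x + u) = φ.f x + ψ x :=
    fun φ u hu x => by rw [φ.per u hu, hψU u hu]
  have hshift : ∀ φ : W γ a, ∀ x, φ.f (x + a) + ψ (x + a) = φ.f x + ψ x :=
    fun φ x => by rw [φ.shift, hψa]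
  let i : W γ a → W γ a := fun φ =>
    if h : 0 < s γ (fun x => φ.f x + ψ x) then
      ⟨fun x => φ.f x + ψ x, hsum φ, hper φ, hshift φ, h⟩
    else
      ⟨fun x => φ.f x + ψ x + 1, hsum1 φ, fun u hu x => by rw [hper φ u hu],
        fun x => by rw [hshift φ], by
          rw [s_add_one]
          have := s_ne_zero htr hne ha (hsum φ) (hper φ)
          omega⟩
  have hi : ∀ φ, (∀ x, (i φ).f x = φ.f x + ψ x) ∨ (∀ x, (i φ).f x = φ.f x + ψ x + 1) := by
    intro φ
    by_cases h : 0 < s γ (fun x => φ.f x + ψ x)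
    · left; intro x; simp only [i, dif_pos h]
    · right; intro x; simp only [i, dif_neg h]
  have hpos : ∀ φ φ' : W γ a, ¬ (∀ x, φ'.f x = φ.f x + 1) := by
    intro φ φ' h
    have h1 := φ'.pos
    rw [show φ'.f = fun x => φ.f x + 1 from funext h, s_add_one] at h1
    have := φ.pos
    omega
  have hinv : ∀ φ, i (i φ) = φ := by
    intro φ
    apply W.ext'
    funext x
    rcases hi φ with h1 | h1 <;> rcases hi (i φ) with h2 | h2
    · rw [h2, h1]; linear_combination zadd (ψ x)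
    · exfalso
      apply hpos φ (i (i φ))
      intro x
      rw [h2, h1]; linear_combination zadd (ψ x)
    · exfalso
      apply hpos φ (i (i φ))
      intro x
      rw [h2, h1]; linear_combination zadd (ψ x)
    · rw [h2, h1]; linear_combination zadd (ψ x) + zadd 1
  have hfix : ∀ φ, i φ ≠ φ := by
    intro φ h
    obtain ⟨x, y, hxy⟩ := hψc
    rcases hi φ with h1 | h1
    · apply hxy
      have hx := h1 x
      have hy := h1 y
      rw [h] at hx hy
      have hx' : ψ x = 0 := by linear_combination - hx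
      have hy' : ψ y = 0 := by linear_combination - hy
      rw [hx', hy']
    · apply hxy
      have hx := h1 x
      have hy := h1 y
      rw [h] at hx hy
      have hx' : ψ x = -1 := by linear_combination - hx
      have hy' : ψ y = -1 := by linear_combination - hy
      rw [hx', hy']
  have hs : ∑ _φ : W γ a, (1 : ZMod 2) = 0 :=
    Finset.sum_involution (fun φ _ => i φ) (fun _ _ => by decide) (fun φ _ _ => hfix φ)
      (fun _ _ => Finset.mem_univ _) (fun φ _ => hinv φ)
  rw [Finset.sum_const, Finset.card_univ, nsmul_eq_mul, mul_one] at hs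
  rw [Nat.card_eq_fintype_card]
  exact (ZMod.natCast_eq_zero_iff _ _).1 hs

theorem exists_const (htr : Tr γ) (hne : γ.Nonempty) (hk : ∃ y, y ∉ γ) {a : V n}
    (ha : ¬ Per γ a) {ψ : V n → ZMod 2} (hψ : Aff ψ)
    (hψU : ∀ u, Per γ u → ∀ x, ψ (x + u) = ψ x)
    (hψa : ∀ x, ψ (x + a) = ψ x) (hψc : ∃ x y, ψ x ≠ ψ y) :
    ∃ φ : V n → ZMod 2, Aff φ ∧ (∀ x, φ (x + a) = φ x) ∧ (∃ x y, φ x ≠ φ y) ∧
      ∃ c, ∀ x ∈ bd γ a, φ x = c := by
  have : Fact (Nat.Prime 2) := ⟨Nat.prime_two⟩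
  obtain ⟨x₀, hx₀⟩ := bd_nonempty ha
  -- the orbit of `x₀`
  have horb : orbit (K γ a) x₀ = (bd γ a : Set (V n)) := by
    ext y
    constructor
    · rintro ⟨h, rfl⟩
      have h0 := mem_bd.1 hx₀
      show h.1 x₀ ∈ (bd γ a : Set (V n))
      rw [mem_coe, mem_bd]
      refine ⟨(h.2.2.1 _).2 h0.1, ?_⟩
      rw [← h.2.2.2, h.2.2.1]
      exact h0.2
    · intro hy
      obtain ⟨h, h1, h2, h3, h4⟩ := htr.move hx₀ hy
      exact ⟨⟨h, h1, h2, h4⟩, h3⟩
  obtain ⟨⟨e, he⟩, _⟩ := params htr hne hk ha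
  have hcard : Nat.card (orbit (K γ a) x₀) = 2 ^ e := by
    rw [horb, Nat.card_coe_set_eq, Set.ncard_coe_finset, he]
  obtain ⟨P⟩ : Nonempty (Sylow 2 (K γ a)) := inferInstance
  have htrans := sylow_orbit x₀ e hcard P
  have heven := even_W htr hne ha hψ hψU hψa hψc
  -- the zero function
  let z : W γ a := ⟨fun _ => 0, fun _ _ _ => by simp, fun _ _ _ => rfl, fun _ => rfl, by
    have : (0 : ℤ) < γ.card := by exact_mod_cast Finset.card_pos.2 hne
    simpa [s, chi_zero] using this⟩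
  have hz : z ∈ fixedPoints P (W γ a) := by
    intro g
    apply W.ext'
    rfl
  obtain ⟨b, hb, hzb⟩ :=
    P.isPGroup'.exists_fixed_point_of_prime_dvd_card_of_fixed_point (W γ a) heven hz
  refine ⟨b.f, b.aff, b.shift, ?_, b.f x₀, ?_⟩
  · by_contra hc
    push Not at hc
    rcases z01 (b.f 0) with h | h
    · apply hzb
      apply W.ext'
      funext x
      show 0 = b.f x
      rw [hc x 0, h]
    · have h1 := b.pos
      rw [s, Finset.sum_congr rfl fun x _ => by rw [hc x 0, h, chi_one], Finset.sum_const] at h1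
      simp at h1
      omega
  · intro x hx
    have hx' : x ∈ orbit (K γ a) x₀ := by rw [horb]; exact hx
    obtain ⟨g, hg, rfl⟩ := htrans x hx'
    have h1 := hb ⟨g, hg⟩
    have h2 : (g • b).f (g • x₀) = b.f (g • x₀) := by
      have : g • b = b := h1
      rw [this]
    rw [act_apply] at h2
    rw [← h2]
    congr 1
    show (g⁻¹ : K γ a).1 (g.1 x₀) = x₀
    simp

end Pool.Agent.H39.SIT
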