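import Mathlib
import Pool.Agent.H39.SIT.Fixed

set_option autoImplicit false

namespace Pool.Agent.H39.SIT

open Finset

variable {n : ℕ} {γ : Finset (V n)}

/-- the indicator function -/
def F (γ : Finset (V n)) (x : V n) : ZMod 2 := if x ∈ γ then 1 else 0

theorem card_one {φ : V n → ZMod 2} (hφ : Aff φ) (hc : ∃ x y, φ x ≠ φ y) :
    2 * (univ.filter fun x => φ x = 1).card = 2 ^ n := by
  have h1 : ∑ x, chi (φ x) = 0 := by
    have := sum_chi_lin hφ hc
    simp only [chi_add, ← Finset.sum_mul] at this
    rcases mul_eq_zero.1 this with h | h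
    · exact h
    · have := chi_mul_self (φ 0); rw [h] at this; norm_num at this
  have h2 : ∀ x, chi (φ x) = 1 - 2 * (if φ x = 1 then (1 : ℤ) else 0) := by
    intro x
    rcases z01 (φ x) with h | h <;> rw [h] <;> decide
  simp only [h2, Finset.sum_sub_distrib, ← Finset.mul_sum, Finset.sum_boole] at h1
  simp only [Finset.sum_const, Finset.card_univ, card_V, nsmul_eq_mul, mul_one] at h1
  have h3 : (2 * (univ.filter fun x => φ x = 1).card : ℤ) = 2 ^ n := by
    push_cast at h1 ⊢; linarith
  exact_mod_cast h3

theorem deriv (htr : Tr γ) (hne : γ.Nonempty) (hk : ∃ y, y ∉ γ) {a : V n} (ha : ¬ Per γ a)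
    (hN : 4 * (bd γ a).card = 2 ^ n) (hU : 4 * (U γ).card ≤ 2 ^ n) :
    ∃ φ : V n → ZMod 2, Aff φ ∧ (∃ x y, φ x ≠ φ y) ∧ ∀ x, F γ (x + a) + F γ x = φ x := by
  classical
  -- a function invariant under the periods and a
  let W' : Submodule (ZMod 2) (V n) :=
    { carrier := {u | Per γ u ∨ Per γ (u + a)}
      add_mem' := by
        rintro u v (hu | hu) (hv | hv)
        · exact Or.inl (per_add hu hv)
        · right; have := per_add hu hv; rwa [← add_assoc] at this
        · right; have := per_add hu hv; rwa [add_right_comm] at this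
        · left
          have := per_add hu hv
          have e : u + a + (v + a) = u + v := by
            rw [add_add_add_comm, vadd, add_zero]
          rwa [e] at this
      zero_mem' := Or.inl per_zero
      smul_mem' := by
        intro c u hu
        rcases z01 c with h | h
        · subst h; rw [zero_smul]; exact Or.inl per_zero
        · subst h; rw [one_smul]; exact hu }
  have hd : ∃ d, d ∉ W' := by
    by_contra hall
    push Not at hall
    have h1 : (univ : Finset (V n)) ⊆ U γ ∪ (U γ).image (fun x => x + a) := by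
      intro x _
      rcases hall x with h | h
      · exact Finset.mem_union_left _ (mem_U.2 h)
      · exact Finset.mem_union_right _ (Finset.mem_image.2 ⟨x + a, mem_U.2 h, vadd_add x a⟩)
    have h2 := Finset.card_le_card h1
    have h3 := Finset.card_union_le (U γ) ((U γ).image (fun x => x + a))
    have h4 : ((U γ).image (fun x => x + a)).card ≤ (U γ).card := Finset.card_image_le
    rw [Finset.card_univ, card_V] at h2
    have : 0 < 2 ^ n := by positivity
    omega
  obtain ⟨d, hd⟩ := hd
  obtain ⟨ψ, hψ, hψW, hψc⟩ := exists_aff W' hd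
  have haW : a ∈ W' := Or.inr (by rw [vadd]; exact per_zero)
  obtain ⟨φ, hφ, hφa, hφc, c, hc⟩ := exists_const htr hne hk ha hψ
    (fun u hu => hψW u (Or.inl hu)) (hψW a haW) hψc
  -- the affine function
  refine ⟨fun x => φ x + c + 1, ?_, ?_, ?_⟩
  · intro x y z
    show φ _ + c + 1 = _
    rw [hφ x y z]
    have : c + c = 0 := zadd c
    have h1 : (1 : ZMod 2) + 1 = 0 := by decide
    linear_combination - this - h1
  · obtain ⟨x, y, hxy⟩ := hφc
    refine ⟨x, y, fun h => hxy ?_⟩
    linear_combination h
  · -- compare the cardinalities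
    have hA : Aff (fun x => φ x + c + 1) := by
      intro x y z
      show φ _ + c + 1 = _
      rw [hφ x y z]
      have : c + c = 0 := zadd c
      have h1 : (1 : ZMod 2) + 1 = 0 := by decide
      linear_combination - this - h1
    have hAc : ∃ x y, (fun x => φ x + c + 1) x ≠ (fun x => φ x + c + 1) y := by
      obtain ⟨x, y, hxy⟩ := hφc
      refine ⟨x, y, fun h => hxy ?_⟩
      have h' : φ x + c + 1 = φ y + c + 1 := h
      linear_combination h'
    have hcard := card_one hA hAc
    have hsub : bd γ a ∪ (bd γ a).image (fun x => x + a) ⊆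
        univ.filter fun x => φ x + c + 1 = 1 := by
      intro x hx
      rw [Finset.mem_filter]
      refine ⟨Finset.mem_univ _, ?_⟩
      have hcc : c + c = 0 := zadd c
      rcases Finset.mem_union.1 hx with h | h
      · rw [hc x h]; linear_combination hcc
      · obtain ⟨y, hy, rfl⟩ := Finset.mem_image.1 h
        rw [hφa, hc y hy]; linear_combination hcc
    have hdisj : Disjoint (bd γ a) ((bd γ a).image (fun x => x + a)) := by
      rw [Finset.disjoint_left]
      intro x hx hx'
      obtain ⟨y, hy, rfl⟩ := Finset.mem_image.1 hx'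
      exact (mem_bd.1 hy).2 (mem_bd.1 hx).1
    have hci : ((bd γ a).image (fun x => x + a)).card = (bd γ a).card :=
      Finset.card_image_of_injective _ (add_left_injective a)
    have heq : bd γ a ∪ (bd γ a).image (fun x => x + a) =
        univ.filter fun x => φ x + c + 1 = 1 := by
      apply Finset.eq_of_subset_of_card_le hsub
      rw [Finset.card_union_of_disjoint hdisj, hci]
      omega
    intro x
    have hx : (x ∈ bd γ a ∪ (bd γ a).image (fun x => x + a)) ↔ φ x + c + 1 = 1 := by
      rw [heq]; simp
    have hx2 : (x ∈ bd γ a ∪ (bd γ a).image (fun x => x + a)) ↔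
        ((x ∈ γ ∧ x + a ∉ γ) ∨ (x + a ∈ γ ∧ x ∉ γ)) := by
      rw [Finset.mem_union, mem_bd, Finset.mem_image]
      constructor
      · rintro (h | ⟨y, hy, rfl⟩)
        · exact Or.inl h
        · right; rw [vadd_add]; exact mem_bd.1 hy
      · rintro (h | h)
        · exact Or.inl h
        · right
          exact ⟨x + a, mem_bd.2 ⟨h.1, by rw [vadd_add]; exact h.2⟩, vadd_add x a⟩
    rw [hx2] at hx
    show F γ (x + a) + F γ x = φ x + c + 1
    unfold F
    by_cases h1 : x ∈ γ <;> by_cases h2 : x + a ∈ γ
    · rw [if_pos h1, if_pos h2, zadd]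
      rcases z01 (φ x + c + 1) with h | h
      · exact h.symm
      · exfalso
        rcases hx.2 h with h | h
        · exact h.2 h2
        · exact h.2 h1
    · rw [if_pos h1, if_neg h2, zero_add]
      exact (hx.1 (Or.inl ⟨h1, h2⟩)).symm
    · rw [if_neg h1, if_pos h2, add_zero]
      exact (hx.1 (Or.inr ⟨h2, h1⟩)).symm
    · rw [if_neg h1, if_neg h2, zadd]
      rcases z01 (φ x + c + 1) with h | h
      · exact h.symm
      · exfalso
        rcases hx.2 h with h | h
        · exact h1 h.1
        · exact h2 h.1

/-- quadratic functions without linear part on the radical -/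
structure Quad (f : V n → ZMod 2) : Prop where
  aff : ∀ a, Aff (fun x => f (x + a) + f x)
  const : ∀ a, (∀ x y, f (x + a) + f x = f (y + a) + f y) → ∀ x, f (x + a) = f x

theorem F_per {a : V n} (ha : Per γ a) (x : V n) : F γ (x + a) = F γ x := by
  unfold F
  by_cases h : x ∈ γ
  · rw [if_pos h, if_pos ((ha x).2 h)]
  · rw [if_neg h, if_neg (fun h' => h ((ha x).1 h'))]

theorem quad_F (htr : Tr γ) (hne : γ.Nonempty) (hk : ∃ y, y ∉ γ) {d₀ : V n} (hd₀ : ¬ Per γ d₀)
    (hN : 4 * (bd γ d₀).card = 2 ^ n) (hU : 4 * (U γ).card ≤ 2 ^ n) : Quad (F γ) := by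
  constructor
  · intro a
    by_cases ha : Per γ a
    · intro x y z
      simp only [F_per ha, zadd]
    · obtain ⟨φ, h1, _, h3⟩ := deriv htr hne hk ha (by rw [bd_card_eq htr ha hd₀]; exact hN) hU
      rw [show (fun x => F γ (x + a) + F γ x) = φ from funext h3]
      exact h1
  · intro a hc
    by_cases ha : Per γ a
    · exact F_per ha
    · exfalso
      obtain ⟨φ, _, ⟨x, y, hxy⟩, h3⟩ := deriv htr hne hk ha
        (by rw [bd_card_eq htr ha hd₀]; exact hN) hU
      apply hxy
      rw [← h3, ← h3]
      exact hc x y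

end Pool.Agent.H39.SIT
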