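import Mathlib
import Pool.Agent.H39.SIT.Quad

set_option autoImplicit false

namespace Pool.Agent.H39.SIT

open Finset

variable {n : ℕ}

open Classical in
/-- the non-periods of a function -/
noncomputable def NP (f : V n → ZMod 2) : Finset (V n) :=
  univ.filter fun a => ∃ x, f (x + a) ≠ f x

theorem mem_NP {f : V n → ZMod 2} {a : V n} : a ∈ NP f ↔ ∃ x, f (x + a) ≠ f x := by simp [NP]

theorem four_chi (u v w : ZMod 2) :
    chi (w + u * v) + chi (w + (u + 1) * v) + chi (w + u * (v + 1)) +
      chi (w + (u + 1) * (v + 1)) = 2 * chi w := by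
  revert u v w; decide

/-- the data of a normal form -/
structure NF (f : V n → ZMod 2) (m : ℕ) (φ ψ : Fin m → V n → ZMod 2) (c : ZMod 2) : Prop where
  affφ : ∀ i, Aff (φ i)
  affψ : ∀ i, Aff (ψ i)
  surj : ∀ p q : Fin m → ZMod 2, ∃ x, (∀ i, φ i x = p i) ∧ ∀ i, ψ i x = q i
  eq : ∀ x, f x = ∑ i, φ i x * ψ i x + c
  inv : ∀ a, (∀ x, f (x + a) = f x) → ∀ i x, φ i (x + a) = φ i x ∧ ψ i (x + a) = ψ i x
  sum : 2 ^ m * ∑ x, chi (f x) = chi c * 2 ^ n

theorem normal_form : ∀ (N : ℕ) (f : V n → ZMod 2), Quad f → (NP f).card ≤ N →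
    ∃ (m : ℕ) (φ ψ : Fin m → V n → ZMod 2) (c : ZMod 2), NF f m φ ψ c := by
  intro N
  induction N with
  | zero =>
    intro f _ hN
    have h0 : NP f = ∅ := Finset.card_eq_zero.1 (by omega)
    have h1 : ∀ a x, f (x + a) = f x := by
      intro a x
      by_contra h
      have : a ∈ NP f := mem_NP.2 ⟨x, h⟩
      rw [h0] at this
      exact absurd this (Finset.notMem_empty a)
    have h2 : ∀ x, f x = f 0 := by
      intro x
      have := h1 x 0
      rwa [zero_add] at this
    refine ⟨0, fun i => i.elim0, fun i => i.elim0, f 0, ⟨fun i => i.elim0, fun i => i.elim0,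
      fun _ _ => ⟨0, fun i => i.elim0, fun i => i.elim0⟩, fun x => ?_, fun _ _ i => i.elim0, ?_⟩⟩
    · simp [h2 x]
    · rw [Finset.sum_congr rfl fun x _ => by rw [h2 x]]
      simp only [Finset.sum_const, Finset.card_univ, card_V, nsmul_eq_mul]
      push_cast
      ring
  | succ N ih =>
    intro f hf hN
    by_cases hcon : ∀ a x, f (x + a) = f x
    · apply ih f hf
      have : NP f = ∅ := by
        ext a
        simp only [mem_NP, Finset.notMem_empty, iff_false, not_exists, not_not]
        exact hcon a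
      rw [this]; simp
    push Not at hcon
    obtain ⟨e, x₀, he⟩ := hcon
    -- the first function
    obtain ⟨ψ₀, hψ₀⟩ : ∃ ψ₀ : V n → ZMod 2, ∀ x, ψ₀ x = f (x + e) + f x := ⟨_, fun _ => rfl⟩
    have affψ₀ : Aff ψ₀ := by
      rw [show ψ₀ = fun x => f (x + e) + f x from funext hψ₀]; exact hf.aff e
    have hc : ∃ x y, ψ₀ x ≠ ψ₀ y := by
      by_contra hcc
      push Not at hcc
      apply he
      apply hf.const e
      intro x y
      rw [← hψ₀, ← hψ₀]
      exact hcc x y
    obtain ⟨e', he'⟩ := aff_nonconst affψ₀ hc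
    obtain ⟨φ₀, hφ₀⟩ : ∃ φ₀ : V n → ZMod 2, ∀ x, φ₀ x = f (x + e') + f x := ⟨_, fun _ => rfl⟩
    have affφ₀ : Aff φ₀ := by
      rw [show φ₀ = fun x => f (x + e') + f x from funext hφ₀]; exact hf.aff e'
    have hφe : φ₀ e + φ₀ 0 = 1 := by
      rw [← he', hφ₀, hφ₀, hψ₀, hψ₀, zero_add, zero_add, add_comm e e']
      ring
    have hφe' : φ₀ e' + φ₀ 0 = 0 := by
      rw [hφ₀, hφ₀, zero_add, vadd]
      have h1 := zadd (f 0)
      have h2 := zadd (f e')
      linear_combination h1 + h2
    have hψe : ψ₀ e + ψ₀ 0 = 0 := by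
      rw [hψ₀, hψ₀, zero_add, vadd]
      have h1 := zadd (f 0)
      have h2 := zadd (f e)
      linear_combination h1 + h2
    have sφe : ∀ x, φ₀ (x + e) = φ₀ x + 1 := fun x => by rw [aff_shift affφ₀, hφe]
    have sφe' : ∀ x, φ₀ (x + e') = φ₀ x := fun x => by rw [aff_shift affφ₀, hφe', add_zero]
    have sψe : ∀ x, ψ₀ (x + e) = ψ₀ x := fun x => by rw [aff_shift affψ₀, hψe, add_zero]
    have sψe' : ∀ x, ψ₀ (x + e') = ψ₀ x + 1 := fun x => by rw [aff_shift affψ₀, he']
    have fe : ∀ x, f (x + e) = f x + ψ₀ x := by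
      intro x; rw [hψ₀]; have := zadd (f x); linear_combination - this
    have fe' : ∀ x, f (x + e') = f x + φ₀ x := by
      intro x; rw [hφ₀]; have := zadd (f x); linear_combination - this
    -- the new function
    obtain ⟨f', hf'⟩ : ∃ f' : V n → ZMod 2, ∀ x, f' x = f x + φ₀ x * ψ₀ x := ⟨_, fun _ => rfl⟩
    have f'e : ∀ x, f' (x + e) = f' x := by
      intro x
      rw [hf', hf', fe, sφe, sψe]
      have := zadd (ψ₀ x)
      linear_combination this
    have f'e' : ∀ x, f' (x + e') = f' x := by
      intro x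
      rw [hf', hf', fe', sφe', sψe']
      have := zadd (φ₀ x)
      linear_combination this
    have perf : ∀ a, (∀ x, f (x + a) = f x) → ∀ x, φ₀ (x + a) = φ₀ x ∧ ψ₀ (x + a) = ψ₀ x := by
      intro a ha x
      rw [hφ₀, hφ₀, hψ₀, hψ₀, add_right_comm, ha, ha, add_right_comm, ha]
      exact ⟨rfl, rfl⟩
    have perf' : ∀ a, (∀ x, f (x + a) = f x) → ∀ x, f' (x + a) = f' x := by
      intro a ha x
      rw [hf', hf', ha, (perf a ha x).1, (perf a ha x).2]
    -- derivative of the new function
    have hD : ∀ a x, f' (x + a) + f' x = (f (x + a) + f x) +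
        ((ψ₀ a + ψ₀ 0) * φ₀ x + (φ₀ a + φ₀ 0) * ψ₀ x + (φ₀ a + φ₀ 0) * (ψ₀ a + ψ₀ 0)) := by
      intro a x
      rw [hf', hf', aff_shift affφ₀, aff_shift affψ₀]
      have := zadd (φ₀ x * ψ₀ x)
      linear_combination this
    have qf' : Quad f' := by
      constructor
      · intro a
        have h1 := hf.aff a
        intro x y z
        show f' _ + f' _ = (f' _ + f' _) + (f' _ + f' _) + (f' _ + f' _)
        rw [hD, hD, hD, hD]
        have h2 : f (x + y + z + a) + f (x + y + z) =
          (f (x + a) + f x) + (f (y + a) + f y) + (f (z + a) + f z) := h1 x y z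
        rw [h2, affφ₀ x y z, affψ₀ x y z]
        have h3 := zadd ((φ₀ a + φ₀ 0) * (ψ₀ a + ψ₀ 0))
        linear_combination - h3
      · intro a hc x
        -- correct a
        obtain ⟨b, hb1, hb2, hb3⟩ : ∃ b : V n, (∀ x, f' (x + b) = f' (x + a)) ∧
            φ₀ b + φ₀ 0 = 0 ∧ ψ₀ b + ψ₀ 0 = 0 := by
          rcases z01 (φ₀ a + φ₀ 0) with h1 | h1 <;> rcases z01 (ψ₀ a + ψ₀ 0) with h2 | h2
          · exact ⟨a, fun _ => rfl, h1, h2⟩
          · refine ⟨a + e', fun x => by rw [← add_assoc, f'e'], ?_, ?_⟩
            · rw [sφe']; exact h1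
            · rw [sψe']; have := zadd (1 : ZMod 2); linear_combination h2 + this
          · refine ⟨a + e, fun x => by rw [← add_assoc, f'e], ?_, ?_⟩
            · rw [sφe]; have := zadd (1 : ZMod 2); linear_combination h1 + this
            · rw [sψe]; exact h2
          · refine ⟨a + e + e', fun x => by rw [← add_assoc, f'e', ← add_assoc, f'e], ?_, ?_⟩
            · rw [sφe', sφe]; have := zadd (1 : ZMod 2); linear_combination h1 + this
            · rw [sψe', sψe]; have := zadd (1 : ZMod 2); linear_combination h2 + this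
        have hb4 : ∀ x, f (x + b) + f x = f' (x + a) + f' x := by
          intro x
          rw [← hb1, hD b x, hb2, hb3]; ring
        have hb5 : ∀ x, f (x + b) = f x := by
          apply hf.const
          intro x y
          rw [hb4, hb4]; exact hc x y
        rw [← hb1]
        exact perf' b hb5 x
    have hcard : (NP f').card < (NP f).card := by
      apply Finset.card_lt_card
      rw [Finset.ssubset_iff_of_subset]
      · refine ⟨e, mem_NP.2 ⟨x₀, he⟩, fun h => ?_⟩
        obtain ⟨x, hx⟩ := mem_NP.1 h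
        exact hx (f'e x)
      · intro a ha
        by_contra h
        obtain ⟨x, hx⟩ := mem_NP.1 ha
        apply hx
        apply perf'
        intro y
        by_contra h'
        exact h (mem_NP.2 ⟨y, h'⟩)
    obtain ⟨m, φ, ψ, c, hNF⟩ := ih f' qf' (by omega)
    refine ⟨m + 1, Fin.cons φ₀ φ, Fin.cons ψ₀ ψ, c, ⟨?_, ?_, ?_, ?_, ?_, ?_⟩⟩
    · intro i
      refine Fin.cases ?_ (fun j => ?_) i
      · exact affφ₀
      · exact hNF.affφ j
    · intro i
      refine Fin.cases ?_ (fun j => ?_) i
      · exact affψ₀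
      · exact hNF.affψ j
    · intro p q
      obtain ⟨x, hx1, hx2⟩ := hNF.surj (fun i => p i.succ) (fun i => q i.succ)
      have ie := hNF.inv e f'e
      have ie' := hNF.inv e' f'e'
      obtain ⟨y, hy1, hy2, hy3⟩ : ∃ y, (∀ i, φ i y = φ i x ∧ ψ i y = ψ i x) ∧ φ₀ y = p 0 ∧
          ψ₀ y = q 0 := by
        rcases z01 (φ₀ x + p 0) with h1 | h1 <;> rcases z01 (ψ₀ x + q 0) with h2 | h2
        · refine ⟨x, fun i => ⟨rfl, rfl⟩, ?_, ?_⟩
          · have := zadd (p 0); linear_combination h1 - this
          · have := zadd (q 0); linear_combination h2 - this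
        · refine ⟨x + e', fun i => ⟨(ie' i x).1, (ie' i x).2⟩, ?_, ?_⟩
          · rw [sφe']; have := zadd (p 0); linear_combination h1 - this
          · rw [sψe']
            have := zadd (q 0); have h3 := zadd (1 : ZMod 2)
            linear_combination h2 - this + h3
        · refine ⟨x + e, fun i => ⟨(ie i x).1, (ie i x).2⟩, ?_, ?_⟩
          · rw [sφe]
            have := zadd (p 0); have h3 := zadd (1 : ZMod 2)
            linear_combination h1 - this + h3
          · rw [sψe]; have := zadd (q 0); linear_combination h2 - this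
        · refine ⟨x + e + e', fun i => ⟨?_, ?_⟩, ?_, ?_⟩
          · rw [(ie' i (x + e)).1, (ie i x).1]
          · rw [(ie' i (x + e)).2, (ie i x).2]
          · rw [sφe', sφe]
            have := zadd (p 0); have h3 := zadd (1 : ZMod 2)
            linear_combination h1 - this + h3
          · rw [sψe', sψe]
            have := zadd (q 0); have h3 := zadd (1 : ZMod 2)
            linear_combination h2 - this + h3
      refine ⟨y, fun i => ?_, fun i => ?_⟩
      · refine Fin.cases ?_ (fun j => ?_) i
        · exact hy2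
        · show φ j y = _
          rw [(hy1 j).1]; exact hx1 j
      · refine Fin.cases ?_ (fun j => ?_) i
        · exact hy3
        · show ψ j y = _
          rw [(hy1 j).2]; exact hx2 j
    · intro x
      rw [Fin.sum_univ_succ]
      simp only [Fin.cons_zero, Fin.cons_succ]
      have h1 := hNF.eq x
      have h2 := hf' x
      have h3 := zadd (φ₀ x * ψ₀ x)
      linear_combination h1 - h2 - h3
    · intro a ha i x
      refine Fin.cases ?_ (fun j => ?_) i
      · exact perf a ha x
      · exact hNF.inv a (perf' a ha) j x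
    · have h1 := hNF.sum
      have h2 : 4 * ∑ x, chi (f x) = 2 * ∑ x, chi (f' x) := by
        have s1 := sum_shift (fun x => chi (f x)) e
        have s2 := sum_shift (fun x => chi (f x)) e'
        have s3 := sum_shift (fun x => chi (f x)) (e + e')
        have : ∑ x, chi (f x) + ∑ x, chi (f (x + e)) + ∑ x, chi (f (x + e')) +
            ∑ x, chi (f (x + (e + e'))) = 2 * ∑ x, chi (f' x) := by
          rw [← Finset.sum_add_distrib, ← Finset.sum_add_distrib, ← Finset.sum_add_distrib,
            Finset.mul_sum]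
          apply Finset.sum_congr rfl
          intro x _
          rw [← four_chi (φ₀ x) (ψ₀ x) (f' x)]
          have g : ∀ y, f y = f' y + φ₀ y * ψ₀ y := by
            intro y; rw [hf']; have := zadd (φ₀ y * ψ₀ y); linear_combination - this
          rw [← add_assoc x e e', g (x + e + e'), g (x + e), g (x + e'), g x]
          simp only [f'e', f'e, sφe', sφe, sψe', sψe]
        rw [s1, s2, s3] at this
        linarith
      rw [pow_succ]
      have h3 : 2 * ∑ x, chi (f x) = ∑ x, chi (f' x) := by linarith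
      rw [mul_assoc, h3]
      exact h1

end Pool.Agent.H39.SIT
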