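import Mathlib
import Pool.Agent.H39.SIT.NormalForm

set_option autoImplicit false

namespace Pool.Agent.H39.SIT

open Finset

/-- two surjective linear maps with the same target differ by an automorphism of the source -/
theorem exists_equiv_comp {K E W : Type*} [Field K] [AddCommGroup E] [Module K E]
    [FiniteDimensional K E] [AddCommGroup W] [Module K W] (P L : E →ₗ[K] W)
    (hP : Function.Surjective P) (hL : Function.Surjective L) :
    ∃ g : E ≃ₗ[K] E, ∀ x, P (g x) = L x := by
  obtain ⟨sP, hsP⟩ := P.exists_rightInverse_of_surjective (LinearMap.range_eq_top.2 hP)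
  obtain ⟨sL, hsL⟩ := L.exists_rightInverse_of_surjective (LinearMap.range_eq_top.2 hL)
  have hsP' : ∀ w, P (sP w) = w := fun w => LinearMap.congr_fun hsP w
  have hsL' : ∀ w, L (sL w) = w := fun w => LinearMap.congr_fun hsL w
  have hfr : Module.finrank K (LinearMap.ker L) = Module.finrank K (LinearMap.ker P) := by
    have h1 := L.finrank_range_add_finrank_ker
    have h2 := P.finrank_range_add_finrank_ker
    rw [LinearMap.range_eq_top.2 hL] at h1
    rw [LinearMap.range_eq_top.2 hP] at h2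
    omega
  let e := LinearEquiv.ofFinrankEq _ _ hfr
  let π : E →ₗ[K] LinearMap.ker L := (LinearMap.id - sL ∘ₗ L).codRestrict (LinearMap.ker L) (by
    intro x
    rw [LinearMap.mem_ker, LinearMap.sub_apply, map_sub, LinearMap.comp_apply, hsL',
      LinearMap.id_apply, sub_self])
  let g0 : E →ₗ[K] E := (LinearMap.ker P).subtype ∘ₗ (e : LinearMap.ker L →ₗ[K] LinearMap.ker P) ∘ₗ π
    + sP ∘ₗ L
  have hg : ∀ x, P (g0 x) = L x := by
    intro x
    have h1 : P ((e (π x) : LinearMap.ker P) : E) = 0 := (e (π x)).2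
    show P (((e (π x) : LinearMap.ker P) : E) + sP (L x)) = L x
    rw [map_add, h1, zero_add, hsP']
  have hinj : Function.Injective g0 := by
    rw [← LinearMap.ker_eq_bot, LinearMap.ker_eq_bot']
    intro x hx
    have h1 : L x = 0 := by rw [← hg, hx, map_zero]
    have h2 : ((e (π x) : LinearMap.ker P) : E) + sP (L x) = 0 := hx
    rw [h1, map_zero, add_zero] at h2
    have h3 : e (π x) = 0 := Subtype.ext h2
    have h4 : π x = 0 := by
      rw [← e.symm_apply_apply (π x), h3, map_zero]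
    have h5 : x - sL (L x) = 0 := congrArg Subtype.val h4
    rw [h1, map_zero, sub_zero] at h5
    exact h5
  exact ⟨LinearEquiv.ofInjectiveEndo g0 hinj, fun x => hg x⟩

variable {n : ℕ}

/-- the linear part of an affine map -/
def linPart {W : Type*} [AddCommGroup W] [Module (ZMod 2) W] (Φ : V n → W) (hΦ : Aff Φ) :
    V n →ₗ[ZMod 2] W :=
  AddMonoidHom.toZModLinearMap 2
    { toFun := fun x => Φ x - Φ 0
      map_zero' := sub_self _
      map_add' := by
        intro x y
        have h := hΦ x y 0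
        rw [add_zero] at h
        have h2 : ∀ w : W, w + w = 0 := by
          intro w
          have : (2 : ZMod 2) • w = 0 := by
            have h2 : (2 : ZMod 2) = 0 := by decide
            rw [h2, zero_smul]
          rw [← this, two_smul]
        rw [h]
        have := h2 (Φ 0)
        have h3 : Φ x - Φ 0 + (Φ y - Φ 0) = Φ x + Φ y + Φ 0 - Φ 0 - (Φ 0 + Φ 0) := by abel
        rw [h3, this, sub_zero] }

theorem linPart_apply {W : Type*} [AddCommGroup W] [Module (ZMod 2) W] (Φ : V n → W)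
    (hΦ : Aff Φ) (x : V n) : linPart Φ hΦ x = Φ x - Φ 0 := rfl

/-- an affine surjection and a linear surjection with the same target differ by an affine
equivalence of the source -/
theorem exists_affineEquiv {W : Type*} [AddCommGroup W] [Module (ZMod 2) W]
    (P : V n →ₗ[ZMod 2] W) (hP : Function.Surjective P) (Φ : V n → W) (hΦ : Aff Φ)
    (hs : Function.Surjective Φ) : ∃ g : V n ≃ᵃ[ZMod 2] V n, ∀ x, P (g x) = Φ x := by
  have hL : Function.Surjective (linPart Φ hΦ) := by
    intro w
    obtain ⟨x, hx⟩ := hs (w + Φ 0)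
    exact ⟨x, by rw [linPart_apply, hx, add_sub_cancel_right]⟩
  obtain ⟨g, hg⟩ := exists_equiv_comp P (linPart Φ hΦ) hP hL
  obtain ⟨t, ht⟩ := hP (Φ 0)
  refine ⟨g.toAffineEquiv.trans (AffineEquiv.constVAdd (ZMod 2) (V n) t), fun x => ?_⟩
  show P (t + g x) = Φ x
  rw [map_add, ht, hg, linPart_apply, add_sub_cancel]

/-- the standard quadratic form `x_0 x_1 + x_2 x_3 + ⋯` with `m` terms -/
def stdForm (n m : ℕ) (x : V n) : ZMod 2 :=
  ∑ i ∈ Finset.range m, if h : 2 * i + 1 < n then x ⟨2 * i, by omega⟩ * x ⟨2 * i + 1, h⟩ else 0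

theorem exists_std {m : ℕ} (hm : 2 * m ≤ n) {φ ψ : Fin m → V n → ZMod 2}
    (hφ : ∀ i, Aff (φ i)) (hψ : ∀ i, Aff (ψ i))
    (hs : ∀ p q : Fin m → ZMod 2, ∃ x, (∀ i, φ i x = p i) ∧ ∀ i, ψ i x = q i) :
    ∃ g : V n ≃ᵃ[ZMod 2] V n, ∀ x, stdForm n m (g x) = ∑ i, φ i x * ψ i x := by
  let P : V n →ₗ[ZMod 2] (Fin m → ZMod 2) × (Fin m → ZMod 2) :=
    { toFun := fun x => (fun i => x ⟨2 * i, by omega⟩, fun i => x ⟨2 * i + 1, by omega⟩)
      map_add' := fun x y => rfl
      map_smul' := fun c x => rfl }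
  have hP : Function.Surjective P := by
    rintro ⟨p, q⟩
    refine ⟨fun j => if h : j.1 / 2 < m then (if j.1 % 2 = 0 then p ⟨j.1 / 2, h⟩
      else q ⟨j.1 / 2, h⟩) else 0, ?_⟩
    refine Prod.ext ?_ ?_
    · funext i
      have h1 : (2 * i.1) / 2 < m := by omega
      have h2 : (2 * i.1) % 2 = 0 := by omega
      have h3 : (2 * i.1) / 2 = i.1 := by omega
      show (if h : (2 * i.1) / 2 < m then (if (2 * i.1) % 2 = 0 then p ⟨(2 * i.1) / 2, h⟩
        else q ⟨(2 * i.1) / 2, h⟩) else 0) = p i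
      rw [dif_pos h1, if_pos h2]
      congr 1
      exact Fin.ext h3
    · funext i
      have h1 : (2 * i.1 + 1) / 2 < m := by omega
      have h2 : ¬ (2 * i.1 + 1) % 2 = 0 := by omega
      have h3 : (2 * i.1 + 1) / 2 = i.1 := by omega
      show (if h : (2 * i.1 + 1) / 2 < m then (if (2 * i.1 + 1) % 2 = 0 then
        p ⟨(2 * i.1 + 1) / 2, h⟩ else q ⟨(2 * i.1 + 1) / 2, h⟩) else 0) = q i
      rw [dif_pos h1, if_neg h2]
      congr 1
      exact Fin.ext h3
  obtain ⟨g, hg⟩ := exists_affineEquiv P hP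
    (fun x => ((fun i => φ i x : Fin m → ZMod 2), (fun i => ψ i x : Fin m → ZMod 2)))
    (by
      intro x y z
      refine Prod.ext ?_ ?_
      · funext i; exact hφ i x y z
      · funext i; exact hψ i x y z)
    (by
      rintro ⟨p, q⟩
      obtain ⟨x, h1, h2⟩ := hs p q
      exact ⟨x, Prod.ext (funext h1) (funext h2)⟩)
  refine ⟨g, fun x => ?_⟩
  rw [stdForm, ← Fin.sum_univ_eq_sum_range (fun i => if h : 2 * i + 1 < n then
    g x ⟨2 * i, by omega⟩ * g x ⟨2 * i + 1, h⟩ else 0) m]
  apply Finset.sum_congr rfl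
  intro i _
  have hi : 2 * i.1 + 1 < n := by omega
  rw [dif_pos hi]
  have h1 : g x ⟨2 * i.1, by omega⟩ = φ i x := congrFun (congrArg Prod.fst (hg x)) i
  have h2 : g x ⟨2 * i.1 + 1, hi⟩ = ψ i x := congrFun (congrArg Prod.snd (hg x)) i
  rw [h1, h2]

/-- a set closed under sums of three points is an affine subspace -/
theorem flat_of_triple {γ : Finset (V n)} (hne : γ.Nonempty)
    (h : ∀ x ∈ γ, ∀ y ∈ γ, ∀ z ∈ γ, x + y + z ∈ γ) :
    (∃ S : AffineSubspace (ZMod 2) (V n), (S : Set (V n)) = γ) ∧ ∃ d, γ.card = 2 ^ d := by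
  obtain ⟨x₀, hx₀⟩ := hne
  let D : Submodule (ZMod 2) (V n) :=
    { carrier := {u | x₀ + u ∈ γ}
      add_mem' := by
        intro u v hu hv
        have := h _ hu _ hv _ hx₀
        show x₀ + (u + v) ∈ γ
        have e : x₀ + u + (x₀ + v) + x₀ = x₀ + (u + v) := by
          have := vadd x₀
          calc x₀ + u + (x₀ + v) + x₀ = (x₀ + x₀) + (x₀ + (u + v)) := by abel
            _ = x₀ + (u + v) := by rw [this, zero_add]
        rwa [e] at this
      zero_mem' := by show x₀ + 0 ∈ γ; rwa [add_zero]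
      smul_mem' := by
        intro c u hu
        rcases z01 c with hc | hc
        · subst hc; rw [zero_smul]; show x₀ + 0 ∈ γ; rwa [add_zero]
        · subst hc; rw [one_smul]; exact hu }
  have hmem : ∀ x, x ∈ γ ↔ x + x₀ ∈ D := by
    intro x
    show x ∈ γ ↔ x₀ + (x + x₀) ∈ γ
    rw [add_comm x x₀, add_vadd]
  constructor
  · refine ⟨AffineSubspace.mk' x₀ D, ?_⟩
    ext x
    rw [SetLike.mem_coe, AffineSubspace.mem_mk', Finset.mem_coe, hmem]
    have : x -ᵥ x₀ = x + x₀ := by
      show x - x₀ = x + x₀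
      have h2 : -x₀ = x₀ := by
        have := vadd x₀
        exact (eq_neg_of_add_eq_zero_left this).symm
      rw [sub_eq_add_neg, h2]
    rw [this]
  · refine ⟨Module.finrank (ZMod 2) D, ?_⟩
    have h1 : γ.card = Fintype.card γ := by simp
    have e : γ ≃ D :=
      { toFun := fun x => ⟨x.1 + x₀, (hmem x.1).1 x.2⟩
        invFun := fun u => ⟨x₀ + u.1, u.2⟩
        left_inv := fun x => Subtype.ext (by
          show x₀ + (x.1 + x₀) = x.1
          rw [add_comm x.1, add_vadd])
        right_inv := fun u => Subtype.ext (by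
          show x₀ + u.1 + x₀ = u.1
          rw [add_comm, add_vadd]) }
    have h2 := Nat.card_congr e
    rw [Nat.card_eq_fintype_card, ← h1] at h2
    rw [h2, Module.natCard_eq_pow_finrank (K := ZMod 2) (V := D)]
    simp

end Pool.Agent.H39.SIT
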