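import Mathlib
import Pool.Agent.H39.SIT.Linear

set_option autoImplicit false

namespace Pool.Agent.H39.SIT

open Finset

variable {n : ℕ} {γ : Finset (V n)}

theorem exists_notMem (h : γ.card < 2 ^ n) : ∃ y, y ∉ γ := by
  by_contra hall
  push Not at hall
  have : γ = univ := Finset.eq_univ_of_forall hall
  rw [this, Finset.card_univ, card_V] at h
  exact lt_irrefl _ h

theorem not_per {x y : V n} (hx : x ∈ γ) (hy : y ∉ γ) : ¬ Per γ (x + y) := by
  intro h
  have := (h x).2 hx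
  rw [add_vadd] at this
  exact hy this

theorem card_U_le (hne : γ.Nonempty) : (U γ).card ≤ γ.card := by
  obtain ⟨x₀, hx₀⟩ := hne
  apply Finset.card_le_card_of_injOn (fun u => x₀ + u)
  · intro u hu
    exact ((mem_U.1 hu) x₀).2 hx₀
  · exact (add_right_injective x₀).injOn

theorem triple_of_card (hne : γ.Nonempty) (h : γ.card = (U γ).card) :
    ∀ x ∈ γ, ∀ y ∈ γ, ∀ z ∈ γ, x + y + z ∈ γ := by
  classical
  obtain ⟨x₀, hx₀⟩ := hne
  have hsub : (U γ).image (fun u => x₀ + u) ⊆ γ := by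
    intro x hx
    obtain ⟨u, hu, rfl⟩ := Finset.mem_image.1 hx
    exact ((mem_U.1 hu) x₀).2 hx₀
  have heq : (U γ).image (fun u => x₀ + u) = γ := by
    apply Finset.eq_of_subset_of_card_le hsub
    rw [Finset.card_image_of_injective _ (add_right_injective x₀), h]
  have hm : ∀ x ∈ γ, ∃ u, Per γ u ∧ x = x₀ + u := by
    intro x hx
    rw [← heq] at hx
    obtain ⟨u, hu, rfl⟩ := Finset.mem_image.1 hx
    exact ⟨u, mem_U.1 hu, rfl⟩
  intro x hx y hy z hz
  obtain ⟨u, hu, rfl⟩ := hm x hx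
  obtain ⟨v, hv, rfl⟩ := hm y hy
  obtain ⟨w, hw, rfl⟩ := hm z hz
  have h1 := (per_add (per_add hu hv) hw x₀).2 hx₀
  have e : x₀ + u + (x₀ + v) + (x₀ + w) = x₀ + (u + v + w) := by
    have := vadd x₀
    calc x₀ + u + (x₀ + v) + (x₀ + w) = (x₀ + x₀) + (x₀ + (u + v + w)) := by abel
      _ = x₀ + (u + v + w) := by rw [this, zero_add]
  rw [e]; exact h1

theorem sum_chi_F (γ : Finset (V n)) : ∑ x, chi (F γ x) = 2 ^ n - 2 * γ.card := by
  have h2 : ∀ x, chi (F γ x) = 1 - 2 * (if x ∈ γ then (1 : ℤ) else 0) := by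
    intro x
    unfold F
    by_cases h : x ∈ γ
    · rw [if_pos h, if_pos h, chi_one]; norm_num
    · rw [if_neg h, if_neg h, chi_zero]; norm_num
  simp only [h2, Finset.sum_sub_distrib, ← Finset.mul_sum, Finset.sum_boole]
  have h4 : univ.filter (fun x => x ∈ γ) = γ := by ext; simp
  simp only [Finset.sum_const, Finset.card_univ, card_V, nsmul_eq_mul, mul_one, h4]
  push_cast
  ring

theorem mem_iff_F (x : V n) : x ∈ γ ↔ F γ x = 1 := by
  unfold F
  by_cases h : x ∈ γ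
  · rw [if_pos h]; simp [h]
  · rw [if_neg h]; simp [h]

theorem two_mul_le {m : ℕ} {φ ψ : Fin m → V n → ZMod 2}
    (hs : ∀ p q : Fin m → ZMod 2, ∃ x, (∀ i, φ i x = p i) ∧ ∀ i, ψ i x = q i) : 2 * m ≤ n := by
  have h1 : Function.Surjective (fun x : V n =>
      ((fun i => φ i x : Fin m → ZMod 2), (fun i => ψ i x : Fin m → ZMod 2))) := by
    rintro ⟨p, q⟩
    obtain ⟨x, h1, h2⟩ := hs p q
    exact ⟨x, Prod.ext (funext h1) (funext h2)⟩
  have h2 := Fintype.card_le_of_surjective _ h1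
  rw [Fintype.card_prod, card_V n, card_V m, ← pow_add] at h2
  have := (Nat.pow_le_pow_iff_right (by norm_num : 1 < 2)).1 h2
  omega

theorem forward (htr : Tr γ) (hn : 1 ≤ n) (h3 : 3 ≤ γ.card) (h2 : γ.card ≤ 2 ^ (n - 1)) :
    ((∃ S : AffineSubspace (ZMod 2) (V n), (S : Set (V n)) = γ) ∧
      ∃ d, 2 ≤ d ∧ d ≤ n - 1 ∧ γ.card = 2 ^ d) ∨
    ∃ m, 2 ≤ m ∧ 2 * m ≤ n ∧ γ.card = 2 ^ (n - 1) - 2 ^ (n - m - 1) ∧
      ∃ g : V n ≃ᵃ[ZMod 2] V n, ∀ x, x ∈ γ ↔ stdForm n m (g x) = 1 := by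
  classical
  have hnn : 2 ^ n = 2 * 2 ^ (n - 1) := by
    rw [← pow_succ']; congr 1; omega
  have hpos : 0 < 2 ^ (n - 1) := by positivity
  have hne : γ.Nonempty := Finset.card_pos.1 (by omega)
  have hk : ∃ y, y ∉ γ := exists_notMem (by omega)
  -- from closure under sums of triples to the first alternative
  have flat : (∀ x ∈ γ, ∀ y ∈ γ, ∀ z ∈ γ, x + y + z ∈ γ) →
      ((∃ S : AffineSubspace (ZMod 2) (V n), (S : Set (V n)) = γ) ∧
      ∃ d, 2 ≤ d ∧ d ≤ n - 1 ∧ γ.card = 2 ^ d) := by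
    intro h
    obtain ⟨hS, d, hd⟩ := flat_of_triple hne h
    refine ⟨hS, d, ?_, ?_, hd⟩
    · by_contra hd2
      have : d = 0 ∨ d = 1 := by omega
      rcases this with rfl | rfl <;> omega
    · rw [hd] at h2
      exact (Nat.pow_le_pow_iff_right (by norm_num : 1 < 2)).1 h2
  obtain ⟨x₁, hx₁⟩ := hne
  obtain ⟨y₁, hy₁⟩ := hk
  have hd₀ := not_per hx₁ hy₁
  rcases (params htr ⟨x₁, hx₁⟩ ⟨y₁, hy₁⟩ hd₀).2 with h | h | ⟨hN, hU⟩
  · exact Or.inl (flat (triple_of_card ⟨x₁, hx₁⟩ h))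
  · have h4 := card_U_le (γ := γ) ⟨x₁, hx₁⟩
    exact Or.inl (flat (triple_of_card ⟨x₁, hx₁⟩ (by omega)))
  · have hq := quad_F htr ⟨x₁, hx₁⟩ ⟨y₁, hy₁⟩ hd₀ hN hU
    obtain ⟨m, φ, ψ, c, hNF⟩ := normal_form (NP (F γ)).card (F γ) hq le_rfl
    have hsum := hNF.sum
    rw [sum_chi_F] at hsum
    have h2' : (2 * γ.card : ℤ) ≤ 2 ^ n := by
      have : 2 * γ.card ≤ 2 ^ n := by omega
      exact_mod_cast this
    have hc : c = 0 := by
      rcases z01 c with h | h
      · exact h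
      · exfalso
        rw [h, chi_one] at hsum
        have p1 : (0 : ℤ) < 2 ^ m := by positivity
        have p2 : (0 : ℤ) < 2 ^ n := by positivity
        have p3 : (0 : ℤ) ≤ 2 ^ m * (2 ^ n - 2 * γ.card) :=
          mul_nonneg p1.le (by linarith)
        linarith
    subst hc
    rw [chi_zero, one_mul] at hsum
    have hm2 : 2 * m ≤ n := two_mul_le hNF.surj
    have hmn : (2 : ℤ) ^ n = 2 ^ m * 2 ^ (n - m) := by
      rw [← pow_add]; congr 1; omega
    have hk2 : (2 : ℤ) ^ n - 2 * γ.card = 2 ^ (n - m) := by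
      have p1 : (2 : ℤ) ^ m ≠ 0 := by positivity
      apply mul_left_cancel₀ p1
      rw [hsum, hmn]
    have hk3 : 2 ^ n = 2 * γ.card + 2 ^ (n - m) := by
      have : (2 : ℤ) ^ n = 2 * γ.card + 2 ^ (n - m) := by linarith
      exact_mod_cast this
    have hm0 : m ≠ 0 := by
      rintro rfl
      rw [Nat.sub_zero] at hk3
      omega
    by_cases hm1 : m = 1
    · left
      subst hm1
      apply flat
      intro x hx y hy z hz
      rw [mem_iff_F, hNF.eq, Fin.sum_univ_one, add_zero] at hx hy hz ⊢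
      have key : ∀ u v : ZMod 2, u * v = 1 → u = 1 ∧ v = 1 := by decide
      rw [hNF.affφ 0 x y z, hNF.affψ 0 x y z, (key _ _ hx).1, (key _ _ hx).2, (key _ _ hy).1,
        (key _ _ hy).2, (key _ _ hz).1, (key _ _ hz).2]
      decide
    · right
      refine ⟨m, by omega, hm2, ?_, ?_⟩
      · have e1 : 2 ^ (n - m) = 2 * 2 ^ (n - m - 1) := by
          rw [← pow_succ']; congr 1; omega
        omega
      · obtain ⟨g, hg⟩ := exists_std hm2 hNF.affφ hNF.affψ hNF.surj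
        refine ⟨g, fun x => ?_⟩
        rw [hg, mem_iff_F, hNF.eq, add_zero]

end Pool.Agent.H39.SIT
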