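import Mathlib
import Pool.Agent.H39.SIT.Forward

set_option autoImplicit false

namespace Pool.Agent.H39.SIT

open Finset

variable {n : ℕ}

theorem char2 {W : Type*} [AddCommGroup W] [Module (ZMod 2) W] (w : W) : w + w = 0 := by
  have : (2 : ZMod 2) • w = 0 := by
    have h2 : (2 : ZMod 2) = 0 := by decide
    rw [h2, zero_smul]
  rw [← this, two_smul]

theorem neg_eq' {W : Type*} [AddCommGroup W] [Module (ZMod 2) W] (w : W) : -w = w :=
  (eq_neg_of_add_eq_zero_left (char2 w)).symm

/-- the affine equivalence attached to a bijection which is an affine map -/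
noncomputable def ofAff (h : Equiv.Perm (V n)) (hh : Aff h) : V n ≃ᵃ[ZMod 2] V n where
  toEquiv := h
  linear := LinearEquiv.ofBijective (linPart h hh) (by
    constructor
    · intro x y hxy
      rw [linPart_apply, linPart_apply] at hxy
      exact h.injective (sub_left_injective hxy)
    · intro w
      refine ⟨h.symm (w + h 0), ?_⟩
      rw [linPart_apply, Equiv.apply_symm_apply, add_sub_cancel_right])
  map_vadd' := by
    intro p v
    show h (v + p) = (h v - h 0) + h p
    have := hh v p 0
    rw [add_zero] at this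
    rw [this, sub_eq_add_neg, neg_eq']
    abel

theorem ofAff_apply (h : Equiv.Perm (V n)) (hh : Aff h) (x : V n) : ofAff h hh x = h x := rfl

theorem aff_of_affineEquiv (g : V n ≃ᵃ[ZMod 2] V n) : Aff g := by
  have h1 : ∀ x, g x = g.linear x + g 0 := by
    intro x
    have := g.map_vadd 0 x
    simpa using this
  intro x y z
  rw [h1 x, h1 y, h1 z, h1 (x + y + z), map_add, map_add]
  have := char2 (g 0)
  calc g.linear x + g.linear y + g.linear z + g 0
      = g.linear x + g.linear y + g.linear z + g 0 + (g 0 + g 0) := by rw [this, add_zero]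
    _ = g.linear x + g 0 + (g.linear y + g 0) + (g.linear z + g 0) := by abel

/-! ### Quadratic functions -/

section quad

variable {f : V n → ZMod 2}

open Classical in
/-- the involution attached to a direction -/
noncomputable def inv (f : V n → ZMod 2) (a : V n) : V n ≃ V n :=
  Function.Involutive.toPerm (fun x => if f (x + a) = f x then x + a else x) (by
    intro x
    by_cases h : f (x + a) = f x
    · simp only [if_pos h, vadd_add]
      rw [if_pos h.symm]
    · simp only [if_neg h])

theorem inv_pos {a x : V n} (h : f (x + a) = f x) : inv f a x = x + a := if_pos h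

theorem inv_neg {a x : V n} (h : f (x + a) ≠ f x) : inv f a x = x := if_neg h

theorem f_inv (a x : V n) : f (inv f a x) = f x := by
  by_cases h : f (x + a) = f x
  · rw [inv_pos h, h]
  · rw [inv_neg h]

theorem inv_eq (a x : V n) : inv f a x = x + (f (x + a) + f x + 1) • a := by
  by_cases h : f (x + a) = f x
  · rw [inv_pos h, h, zadd, zero_add, one_smul]
  · have h1 : f (x + a) + f x = 1 := by
      apply zne
      intro h2
      apply h
      have := zadd (f x)
      linear_combination h2 - this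
    rw [inv_neg h, h1, zadd, zero_smul, add_zero]

theorem aff_inv' {a : V n} (ha : Aff (fun x => f (x + a) + f x)) : Aff (inv f a) := by
  intro x y z
  rw [inv_eq, inv_eq, inv_eq, inv_eq]
  have h := ha x y z
  have h' : f (x + y + z + a) + f (x + y + z) =
    (f (x + a) + f x) + (f (y + a) + f y) + (f (z + a) + f z) := h
  rw [h']
  have e : (f (x + a) + f x + (f (y + a) + f y) + (f (z + a) + f z) + 1) =
      (f (x + a) + f x + 1) + (f (y + a) + f y + 1) + (f (z + a) + f z + 1) := by
    have := zadd (1 : ZMod 2)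
    linear_combination - this
  rw [e, add_smul, add_smul]
  abel

/-- auxiliary point -/
theorem exists_aux (hf : ∀ a, Aff (fun x => f (x + a) + f x)) (hs : 0 < ∑ x, chi (f x))
    {x a b : V n} (hx : f x = 1) (ha : f (x + a) = 0) (hb : f (x + b) = 0)
    (hab : f (x + a + b) = 1) : ∃ z, f z = 0 ∧ f (z + a) = 0 ∧ f (z + b) = 0 := by
  by_contra hall
  push Not at hall
  have hDD : ∀ z, f (z + b + a) + f (z + b) = f (z + a) + f z := by
    intro z
    have h1 := aff_shift (hf a) z b
    have h2 := aff_shift (hf a) x b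
    have h1' : f (z + b + a) + f (z + b) = f (z + a) + f z + ((f (b + a) + f b) + (f (0 + a) + f 0)) := h1
    have h2' : f (x + b + a) + f (x + b) = f (x + a) + f x + ((f (b + a) + f b) + (f (0 + a) + f 0)) := h2
    rw [add_right_comm x b a, hab, hb, ha, hx, add_zero, zero_add] at h2'
    have h3 : (f (b + a) + f b) + (f (0 + a) + f 0) = 0 := by
      linear_combination - h2'
    rw [h1', h3, add_zero]
  have key : ∀ z, chi (f z) ≤ chi (f z) * (if f (z + a) + f z = 0 then 0 else 1) +
      chi (f z) * (if f (z + a) + f z = 0 ∧ f (z + b) + f z ≠ 0 then 1 else 0) := by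
    intro z
    by_cases h1 : f (z + a) + f z = 0
    · by_cases h2 : f (z + b) + f z = 0
      · have hz : f z = 1 := by
          rcases z01 (f z) with h | h
          · exfalso
            rw [h, add_zero] at h1 h2
            exact hall z h h1 h2
          · exact h
        have h3 : ¬ (f (z + a) + f z = 0 ∧ f (z + b) + f z ≠ 0) := fun h => h.2 h2
        rw [if_pos h1, if_neg h3, hz, chi_one]
        norm_num
      · rw [if_pos h1, if_pos ⟨h1, h2⟩]
        simp
    · have h3 : ¬ (f (z + a) + f z = 0 ∧ f (z + b) + f z ≠ 0) := fun h => h1 h.1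
      rw [if_neg h1, if_neg h3]
      simp
  have hle := Finset.sum_le_sum (fun z (_ : z ∈ (univ : Finset (V n))) => key z)
  rw [Finset.sum_add_distrib] at hle
  have s1 : ∑ z, chi (f z) * (if f (z + a) + f z = 0 then (0 : ℤ) else 1) = 0 := by
    apply sum_flip _ a
    intro z
    rw [vadd_add, add_comm (f z) (f (z + a))]
    by_cases h1 : f (z + a) + f z = 0
    · rw [if_pos h1]; simp
    · rw [if_neg h1, mul_one, mul_one]
      have h2 := zne h1
      have h3 : f (z + a) = f z + 1 := by
        have := zadd (f z)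
        linear_combination h2 - this
      rw [h3, chi_add, chi_one, mul_neg_one]
  have s2 : ∑ z, chi (f z) * (if f (z + a) + f z = 0 ∧ f (z + b) + f z ≠ 0 then (1 : ℤ) else 0)
      = 0 := by
    apply sum_flip _ b
    intro z
    rw [hDD z, vadd_add, add_comm (f z) (f (z + b))]
    by_cases h1 : f (z + a) + f z = 0 ∧ f (z + b) + f z ≠ 0
    · rw [if_pos h1, mul_one, mul_one]
      have h2 := zne h1.2
      have h3 : f (z + b) = f z + 1 := by
        have := zadd (f z)
        linear_combination h2 - this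
      rw [h3, chi_add, chi_one, mul_neg_one]
    · rw [if_neg h1]; simp
  rw [s1, s2] at hle
  linarith

theorem quad_trans (hf : ∀ a, Aff (fun x => f (x + a) + f x)) (hs : 0 < ∑ x, chi (f x))
    {x y x' y' : V n} (hx : f x = 1) (hy : f y = 0) (hx' : f x' = 1) (hy' : f y' = 0) :
    ∃ g : V n ≃ᵃ[ZMod 2] V n, (∀ z, f (g z) = f z) ∧ g x = x' ∧ g y = y' := by
  -- a single involution
  have one : ∀ u v : V n, f u = f v → ∃ g : V n ≃ᵃ[ZMod 2] V n, (∀ z, f (g z) = f z) ∧
      g u = v ∧ ∀ z, f (z + (u + v)) ≠ f z → g z = z := by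
    intro u v huv
    refine ⟨ofAff (inv f (u + v)) (aff_inv' (hf (u + v))), fun z => ?_, ?_, fun z hz => ?_⟩
    · rw [ofAff_apply]
      exact f_inv (f := f) (u + v) z
    · rw [ofAff_apply, inv_pos (by rw [add_vadd, huv]), add_vadd]
    · rw [ofAff_apply, inv_neg hz]
  obtain ⟨g₁, h1, h2, _⟩ := one x x' (by rw [hx, hx'])
  have hy1 : f (g₁ y) = 0 := by rw [h1, hy]
  obtain ⟨y₁, hy₁⟩ : ∃ y₁, g₁ y = y₁ := ⟨_, rfl⟩
  rw [hy₁] at hy1
  suffices h : ∃ g : V n ≃ᵃ[ZMod 2] V n, (∀ z, f (g z) = f z) ∧ g x' = x' ∧ g y₁ = y' by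
    obtain ⟨g, h3, h4, h5⟩ := h
    refine ⟨g₁.trans g, fun z => ?_, ?_, ?_⟩
    · rw [AffineEquiv.trans_apply, h3, h1]
    · rw [AffineEquiv.trans_apply, h2, h4]
    · rw [AffineEquiv.trans_apply, hy₁, h5]
  by_cases hc : f (x' + (y₁ + y')) = 0
  · obtain ⟨g, h3, h4, h5⟩ := one y₁ y' (by rw [hy1, hy'])
    exact ⟨g, h3, h5 x' (by rw [hc, hx']; decide), h4⟩
  · have hc1 := zne hc
    obtain ⟨z, hz0, hz1, hz2⟩ := exists_aux hf hs (x := x') (a := x' + y₁) (b := x' + y') hx'
      (by rw [add_vadd]; exact hy1) (by rw [add_vadd]; exact hy') (by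
        rw [add_vadd, ← add_assoc, add_comm y₁ x', add_assoc]; exact hc1)
    obtain ⟨g, h3, h4, h5⟩ := one y₁ z (by rw [hy1, hz0])
    obtain ⟨g', h3', h4', h5'⟩ := one z y' (by rw [hy', hz0])
    refine ⟨g.trans g', fun w => ?_, ?_, ?_⟩
    · rw [AffineEquiv.trans_apply, h3', h3]
    · rw [AffineEquiv.trans_apply, h5 x', h5' x']
      · rw [hx', ← add_assoc, add_right_comm, add_comm (x' + y'), hz2]; decide
      · rw [hx', ← add_assoc, add_comm (x' + y₁), hz1]; decide
    · rw [AffineEquiv.trans_apply, h4, h4']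

end quad

/-! ### Flats -/

section flat

variable {γ : Finset (V n)}

theorem flat_trans (hγ : ∀ x ∈ γ, ∀ y ∈ γ, ∀ z ∈ γ, x + y + z ∈ γ)
    {x y x' y' : V n} (hx : x ∈ γ) (hy : y ∉ γ) (hx' : x' ∈ γ) (hy' : y' ∉ γ) :
    ∃ g : V n ≃ᵃ[ZMod 2] V n, (∀ z, g z ∈ γ ↔ z ∈ γ) ∧ g x = x' ∧ g y = y' := by
  -- the direction
  let D : Submodule (ZMod 2) (V n) := Usub γ
  have hD : ∀ {u v : V n}, u ∈ γ → v ∈ γ → Per γ (u + v) := by
    intro u v hu hv z
    constructor
    · intro h
      have := hγ _ h _ hu _ hv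
      rw [show z + (u + v) + u + v = z from ?_] at this
      · exact this
      · rw [add_assoc (z + (u + v)) u v, vadd_add]
    · intro h
      have := hγ _ h _ hu _ hv
      rwa [add_assoc] at this
  have hD2 : ∀ {u v : V n}, u ∈ γ → Per γ (u + v) → v ∈ γ := by
    intro u v hu h
    have := (h u).2 hu
    rwa [add_vadd] at this
  -- the translation
  have htr : Aff (Equiv.addRight (x + x') : V n ≃ V n) := by
    intro a b c
    show a + b + c + (x + x') = a + (x + x') + (b + (x + x')) + (c + (x + x'))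
    have := vadd (x + x')
    calc a + b + c + (x + x') = a + b + c + (x + x') + ((x + x') + (x + x')) := by
          rw [this, add_zero]
      _ = _ := by abel
  obtain ⟨y₁, hy₁⟩ : ∃ y₁, y + (x + x') = y₁ := ⟨_, rfl⟩
  have hy₁' : y₁ ∉ γ := by
    rw [← hy₁]
    exact fun h => hy ((hD hx hx' y).1 h)
  -- the functional
  let W' : Submodule (ZMod 2) (V n) :=
    { carrier := {u | Per γ u ∨ Per γ (u + (y₁ + y'))}
      add_mem' := by
        rintro u v (hu | hu) (hv | hv)
        · exact Or.inl (per_add hu hv)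
        · right; have := per_add hu hv; rwa [← add_assoc] at this
        · right; have := per_add hu hv; rwa [add_right_comm] at this
        · left
          have := per_add hu hv
          have e : u + (y₁ + y') + (v + (y₁ + y')) = u + v := by
            rw [add_add_add_comm, vadd, add_zero]
          rwa [e] at this
      zero_mem' := Or.inl per_zero
      smul_mem' := by
        intro c u hu
        rcases z01 c with h | h
        · subst h; rw [zero_smul]; exact Or.inl per_zero
        · subst h; rw [one_smul]; exact hu }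
  have hW : x' + y₁ ∉ W' := by
    rintro (h | h)
    · exact hy₁' (hD2 hx' h)
    · rw [add_assoc, add_vadd] at h
      exact hy' (hD2 hx' h)
  obtain ⟨ℓ, hℓ, hℓW⟩ := Submodule.exists_le_ker_of_notMem hW
  have h1 : ℓ (x' + y₁) = 1 := zne hℓ
  have h2 : ℓ (y₁ + y') = 0 := by
    apply hℓW
    right
    rw [vadd]; exact per_zero
  have h3 : ∀ u, Per γ u → ℓ u = 0 := fun u hu => hℓW (Or.inl hu)
  have h4 : ∀ z ∈ γ, ℓ (z + x') = 0 := fun z hz => h3 _ (hD hz hx')
  -- the transvection
  have hinv : Function.Involutive (fun z : V n => z + ℓ (z + x') • (y₁ + y')) := by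
    intro z
    show z + ℓ (z + x') • (y₁ + y') + ℓ (z + ℓ (z + x') • (y₁ + y') + x') • (y₁ + y') = z
    have : ℓ (z + ℓ (z + x') • (y₁ + y') + x') = ℓ (z + x') := by
      rw [add_right_comm, map_add, map_smul, h2, smul_zero, add_zero]
    rw [this, vadd_add]
  have haff : Aff (Function.Involutive.toPerm _ hinv : V n ≃ V n) := by
    intro a b c
    show a + b + c + ℓ (a + b + c + x') • (y₁ + y') = a + ℓ (a + x') • (y₁ + y') +
      (b + ℓ (b + x') • (y₁ + y')) + (c + ℓ (c + x') • (y₁ + y'))
    have e : ℓ (a + b + c + x') = ℓ (a + x') + ℓ (b + x') + ℓ (c + x') := by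
      simp only [map_add]
      have := zadd (ℓ x')
      linear_combination - this
    rw [e, add_smul, add_smul]
    abel
  refine ⟨(ofAff _ htr).trans (ofAff _ haff), ?_, ?_, ?_⟩
  · have t1 : ∀ z, z + ℓ (z + x') • (y₁ + y') ∈ γ ↔ z ∈ γ := by
      have t2 : ∀ z, z ∈ γ → z + ℓ (z + x') • (y₁ + y') ∈ γ := by
        intro z hz
        rw [h4 z hz, zero_smul, add_zero]; exact hz
      intro z
      constructor
      · intro h
        have := t2 _ h
        have h5 := hinv z
        simp only at h5
        rwa [h5] at this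
      · exact t2 z
    intro z
    rw [AffineEquiv.trans_apply, ofAff_apply, ofAff_apply]
    show z + (x + x') + ℓ (z + (x + x') + x') • (y₁ + y') ∈ γ ↔ z ∈ γ
    rw [t1]
    exact hD hx hx' z
  · rw [AffineEquiv.trans_apply, ofAff_apply, ofAff_apply]
    show x + (x + x') + ℓ (x + (x + x') + x') • (y₁ + y') = x'
    rw [add_vadd, vadd, map_zero, zero_smul, add_zero]
  · rw [AffineEquiv.trans_apply, ofAff_apply, ofAff_apply]
    show y + (x + x') + ℓ (y + (x + x') + x') • (y₁ + y') = y'
    rw [hy₁, add_comm y₁ x', h1, one_smul, add_vadd]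

/-- the affine group is transitive on flats of given size -/
theorem flat_orbit {γ' : Finset (V n)} (hγ : ∀ x ∈ γ, ∀ y ∈ γ, ∀ z ∈ γ, x + y + z ∈ γ)
    (hγ' : ∀ x ∈ γ', ∀ y ∈ γ', ∀ z ∈ γ', x + y + z ∈ γ') (hne : γ.Nonempty)
    (hne' : γ'.Nonempty) (hcard : γ.card = γ'.card) :
    ∃ g : V n ≃ᵃ[ZMod 2] V n, ∀ z, g z ∈ γ' ↔ z ∈ γ := by
  obtain ⟨x, hx⟩ := hne
  obtain ⟨x', hx'⟩ := hne'
  have per : ∀ {δ : Finset (V n)} (_ : ∀ x ∈ δ, ∀ y ∈ δ, ∀ z ∈ δ, x + y + z ∈ δ) {x : V n}
      (_ : x ∈ δ) (u : V n), u ∈ Usub δ ↔ x + u ∈ δ := by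
    intro δ hδ x hx u
    constructor
    · intro h; exact (h x).2 hx
    · intro h z
      constructor
      · intro h'
        have := hδ _ h' _ hx _ h
        rw [show z + u + x + (x + u) = z from ?_] at this
        · exact this
        · have e1 := vadd u
          have e2 := vadd x
          calc z + u + x + (x + u) = z + (u + u) + (x + x) := by abel
            _ = z := by rw [e1, e2, add_zero, add_zero]
      · intro h'
        have := hδ _ h' _ hx _ h
        rw [show z + x + (x + u) = z + u from ?_] at this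
        · exact this
        · rw [add_assoc, add_vadd]
  have cardU : ∀ {δ : Finset (V n)} (_ : ∀ x ∈ δ, ∀ y ∈ δ, ∀ z ∈ δ, x + y + z ∈ δ) {x : V n}
      (_ : x ∈ δ), δ.card = 2 ^ Module.finrank (ZMod 2) (Usub δ) := by
    intro δ hδ x hx
    have e : δ ≃ Usub δ :=
      { toFun := fun z => ⟨x + z.1, (per hδ hx _).2 (by rw [add_vadd]; exact z.2)⟩
        invFun := fun u => ⟨x + u.1, (per hδ hx _).1 u.2⟩
        left_inv := fun z => Subtype.ext (add_vadd x z.1)
        right_inv := fun u => Subtype.ext (add_vadd x u.1) }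
    have h2 := Nat.card_congr e
    rw [Nat.card_eq_fintype_card, Fintype.card_coe] at h2
    rw [h2, Module.natCard_eq_pow_finrank (K := ZMod 2) (V := Usub δ)]
    simp
  have hfr : Module.finrank (ZMod 2) (Usub γ) = Module.finrank (ZMod 2) (Usub γ') := by
    have h1 := cardU hγ hx
    have h2 := cardU hγ' hx'
    rw [hcard, h2] at h1
    exact (Nat.pow_right_injective le_rfl h1).symm
  have hfq : Module.finrank (ZMod 2) (V n ⧸ Usub γ) = Module.finrank (ZMod 2) (V n ⧸ Usub γ') := by
    have h1 := Submodule.finrank_quotient_add_finrank (Usub γ)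
    have h2 := Submodule.finrank_quotient_add_finrank (Usub γ')
    omega
  let e := LinearEquiv.ofFinrankEq _ _ hfq
  obtain ⟨g, hg⟩ := exists_equiv_comp (Usub γ').mkQ
    ((e : (V n ⧸ Usub γ) →ₗ[ZMod 2] (V n ⧸ Usub γ')) ∘ₗ (Usub γ).mkQ)
    (Submodule.mkQ_surjective _) (e.surjective.comp (Submodule.mkQ_surjective _))
  have hg2 : ∀ u, g u ∈ Usub γ' ↔ u ∈ Usub γ := by
    intro u
    rw [← Submodule.ker_mkQ (Usub γ'), LinearMap.mem_ker, hg, LinearMap.comp_apply]
    show e ((Usub γ).mkQ u) = 0 ↔ _
    rw [LinearEquiv.map_eq_zero_iff, ← LinearMap.mem_ker, Submodule.ker_mkQ]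
  refine ⟨(AffineEquiv.constVAdd (ZMod 2) (V n) x).trans (g.toAffineEquiv.trans
    (AffineEquiv.constVAdd (ZMod 2) (V n) x')), fun z => ?_⟩
  show x' + g (x + z) ∈ γ' ↔ z ∈ γ
  rw [← per hγ' hx', hg2, per hγ hx, add_vadd]

end flat

end Pool.Agent.H39.SIT
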