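import Mathlib
import Pool.Agent.H39.SIT.Converse

set_option autoImplicit false

namespace Pool.Agent.H39.SIT

open Finset

variable {n : ℕ}

/-- one term of the standard form -/
def term (n i : ℕ) (x : V n) : ZMod 2 :=
  if h : 2 * i + 1 < n then x ⟨2 * i, by omega⟩ * x ⟨2 * i + 1, h⟩ else 0

theorem stdForm_eq (m : ℕ) (x : V n) : stdForm n m x = ∑ i ∈ Finset.range m, term n i x := rfl

theorem term_aff (i : ℕ) (a : V n) : Aff (fun x => term n i (x + a) + term n i x) := by
  intro x y z
  simp only [term]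
  by_cases h : 2 * i + 1 < n
  · simp only [dif_pos h, Pi.add_apply]
    generalize x ⟨2 * i, by omega⟩ = x1
    generalize x ⟨2 * i + 1, h⟩ = x2
    generalize y ⟨2 * i, by omega⟩ = y1
    generalize y ⟨2 * i + 1, h⟩ = y2
    generalize z ⟨2 * i, by omega⟩ = z1
    generalize z ⟨2 * i + 1, h⟩ = z2
    generalize a ⟨2 * i, by omega⟩ = a1
    generalize a ⟨2 * i + 1, h⟩ = a2
    have h1 := zadd ((x1 + y1 + z1) * (x2 + y2 + z2))
    have h2 := zadd (x1 * x2)
    have h3 := zadd (y1 * y2)
    have h4 := zadd (z1 * z2)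
    have h5 := zadd (a1 * a2)
    linear_combination h1 - h2 - h3 - h4 - h5
  · simp only [dif_neg h]
    rfl

theorem std_aff (m : ℕ) (a : V n) : Aff (fun x => stdForm n m (x + a) + stdForm n m x) := by
  intro x y z
  simp only [stdForm_eq, ← Finset.sum_add_distrib]
  apply Finset.sum_congr rfl
  intro i _
  exact term_aff i a x y z

theorem std_sum (m : ℕ) (hm : 2 * m ≤ n) : 2 ^ m * ∑ x : V n, chi (stdForm n m x) = 2 ^ n := by
  induction m with
  | zero =>
    simp [stdForm, chi_zero]
  | succ m ih =>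
    have h1 := ih (by omega)
    have hi : 2 * m + 1 < n := by omega
    let e : V n := Pi.single ⟨2 * m, by omega⟩ 1
    let e' : V n := Pi.single ⟨2 * m + 1, hi⟩ 1
    have fe : ∀ x, stdForm n m (x + e) = stdForm n m x := by
      intro x
      rw [stdForm_eq, stdForm_eq]
      apply Finset.sum_congr rfl
      intro i him
      rw [Finset.mem_range] at him
      have h : 2 * i + 1 < n := by omega
      simp only [term, dif_pos h, Pi.add_apply]
      have e1 : e ⟨2 * i, by omega⟩ = 0 := by
        apply Pi.single_eq_of_ne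
        intro h; have := congrArg Fin.val h; simp at this; omega
      have e2 : e ⟨2 * i + 1, h⟩ = 0 := by
        apply Pi.single_eq_of_ne
        intro h; have := congrArg Fin.val h; simp at this; omega
      rw [e1, e2, add_zero, add_zero]
    have fe' : ∀ x, stdForm n m (x + e') = stdForm n m x := by
      intro x
      rw [stdForm_eq, stdForm_eq]
      apply Finset.sum_congr rfl
      intro i him
      rw [Finset.mem_range] at him
      have h : 2 * i + 1 < n := by omega
      simp only [term, dif_pos h, Pi.add_apply]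
      have e1 : e' ⟨2 * i, by omega⟩ = 0 := by
        apply Pi.single_eq_of_ne
        intro h; have := congrArg Fin.val h; simp at this; omega
      have e2 : e' ⟨2 * i + 1, h⟩ = 0 := by
        apply Pi.single_eq_of_ne
        intro h; have := congrArg Fin.val h; simp at this; omega
      rw [e1, e2, add_zero, add_zero]
    obtain ⟨u, hu⟩ : ∃ u : V n → ZMod 2, ∀ x, u x = x ⟨2 * m, by omega⟩ := ⟨_, fun _ => rfl⟩
    obtain ⟨v, hv⟩ : ∃ v : V n → ZMod 2, ∀ x, v x = x ⟨2 * m + 1, hi⟩ := ⟨_, fun _ => rfl⟩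
    have hne : (⟨2 * m, by omega⟩ : Fin n) ≠ ⟨2 * m + 1, hi⟩ := by
      intro h; have := congrArg Fin.val h; simp at this
    have e0 : e ⟨2 * m, by omega⟩ = 1 := Pi.single_eq_same _ _
    have e1 : e ⟨2 * m + 1, hi⟩ = 0 := Pi.single_eq_of_ne hne.symm _
    have e0' : e' ⟨2 * m, by omega⟩ = 0 := Pi.single_eq_of_ne hne _
    have e1' : e' ⟨2 * m + 1, hi⟩ = 1 := Pi.single_eq_same _ _
    have ue : ∀ x, u (x + e) = u x + 1 := fun x => by
      rw [hu, hu, Pi.add_apply, e0]
    have ve : ∀ x, v (x + e) = v x := fun x => by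
      rw [hv, hv, Pi.add_apply, e1, add_zero]
    have ue' : ∀ x, u (x + e') = u x := fun x => by
      rw [hu, hu, Pi.add_apply, e0', add_zero]
    have ve' : ∀ x, v (x + e') = v x + 1 := fun x => by
      rw [hv, hv, Pi.add_apply, e1']
    have hs : ∀ x, stdForm n (m + 1) x = stdForm n m x + u x * v x := by
      intro x
      rw [stdForm_eq, Finset.sum_range_succ, ← stdForm_eq, hu, hv, term, dif_pos hi]
    have s1 := sum_shift (fun x => chi (stdForm n (m + 1) x)) e
    have s2 := sum_shift (fun x => chi (stdForm n (m + 1) x)) e'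
    have s3 := sum_shift (fun x => chi (stdForm n (m + 1) x)) (e + e')
    have key : ∑ x, chi (stdForm n (m + 1) x) + ∑ x, chi (stdForm n (m + 1) (x + e)) +
        ∑ x, chi (stdForm n (m + 1) (x + e')) + ∑ x, chi (stdForm n (m + 1) (x + (e + e'))) =
        2 * ∑ x, chi (stdForm n m x) := by
      rw [← Finset.sum_add_distrib, ← Finset.sum_add_distrib, ← Finset.sum_add_distrib,
        Finset.mul_sum]
      apply Finset.sum_congr rfl
      intro x _
      rw [← four_chi (u x) (v x) (stdForm n m x), ← add_assoc x e e']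
      simp only [hs, fe, fe', ue, ue', ve, ve']
    rw [s1, s2, s3] at key
    have h3 : 2 * ∑ x, chi (stdForm n (m + 1) x) = ∑ x, chi (stdForm n m x) := by linarith
    rw [pow_succ, mul_assoc, h3]
    exact h1

theorem std_sum_pos (m : ℕ) (hm : 2 * m ≤ n) : 0 < ∑ x : V n, chi (stdForm n m x) := by
  have h := std_sum m hm
  have h1 : (0 : ℤ) < 2 ^ m * ∑ x : V n, chi (stdForm n m x) := by rw [h]; positivity
  exact (mul_pos_iff_of_pos_left (by positivity)).1 h1

theorem std_card (m : ℕ) (hm1 : 1 ≤ m) (hm : 2 * m ≤ n) :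
    (univ.filter fun x : V n => stdForm n m x = 1).card = 2 ^ (n - 1) - 2 ^ (n - m - 1) := by
  have h := std_sum m hm
  have h1 : F (univ.filter fun x : V n => stdForm n m x = 1) = stdForm n m := by
    funext x
    unfold F
    rcases z01 (stdForm n m x) with h | h
    · rw [if_neg (by simp [h]), h]
    · rw [if_pos (by simp [h]), h]
  have h2 := sum_chi_F (univ.filter fun x : V n => stdForm n m x = 1)
  rw [h1] at h2
  rw [h2] at h
  have hmn : (2 : ℤ) ^ n = 2 ^ m * 2 ^ (n - m) := by
    rw [← pow_add]; congr 1; omega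
  have hk2 : (2 : ℤ) ^ n - 2 * (univ.filter fun x : V n => stdForm n m x = 1).card =
      2 ^ (n - m) := by
    have p1 : (2 : ℤ) ^ m ≠ 0 := by positivity
    apply mul_left_cancel₀ p1
    rw [h, hmn]
  have hk3 : 2 ^ n = 2 * (univ.filter fun x : V n => stdForm n m x = 1).card + 2 ^ (n - m) := by
    have : (2 : ℤ) ^ n = 2 * (univ.filter fun x : V n => stdForm n m x = 1).card +
      2 ^ (n - m) := by linarith
    exact_mod_cast this
  have e1 : 2 ^ (n - m) = 2 * 2 ^ (n - m - 1) := by
    rw [← pow_succ']; congr 1; omega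
  have e2 : 2 ^ n = 2 * 2 ^ (n - 1) := by
    rw [← pow_succ']; congr 1; omega
  omega

end Pool.Agent.H39.SIT
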