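import Mathlib
import Pool.Agent.H39.SIT.Std

set_option autoImplicit false

namespace Pool.Agent.H39.SIT

open Finset

variable {n : ℕ}

/-- a closed set of half the size is the set where a function `dot w + c` equals `1` -/
theorem exists_hyper {γ : Finset (V n)} (hγ : ∀ x ∈ γ, ∀ y ∈ γ, ∀ z ∈ γ, x + y + z ∈ γ)
    (hne : γ.Nonempty) (hcard : 2 * γ.card = 2 ^ n) :
    ∃ w : V n, ∃ c : ZMod 2, w ≠ 0 ∧ ∀ x, F γ x = dot w x + c := by
  classical
  have hpos : 0 < 2 ^ n := by positivity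
  obtain ⟨y, hy⟩ := exists_notMem (γ := γ) (by omega)
  obtain ⟨x', hx'⟩ := hne
  have hD2 : ∀ {u v : V n}, u ∈ γ → Per γ (u + v) → v ∈ γ := by
    intro u v hu h
    have := (h u).2 hu
    rwa [add_vadd] at this
  have hD : ∀ {u v : V n}, u ∈ γ → v ∈ γ → Per γ (u + v) := by
    intro u v hu hv z
    constructor
    · intro h
      have := hγ _ h _ hu _ hv
      rw [show z + (u + v) + u + v = z from ?_] at this
      · exact this
      · rw [add_assoc (z + (u + v)) u v, vadd_add]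
    · intro h
      have := hγ _ h _ hu _ hv
      rwa [add_assoc] at this
  have hW : x' + y ∉ Usub γ := fun h => hy (hD2 hx' h)
  obtain ⟨ℓ, hℓ, hℓW⟩ := Submodule.exists_le_ker_of_notMem hW
  have hd : ∀ x, ℓ x = dot (fun i => ℓ (Pi.single i 1)) x := by
    intro x
    rw [LinearMap.pi_apply_eq_sum_univ ℓ x, dot]
    apply Finset.sum_congr rfl
    intro i _
    rw [smul_eq_mul, mul_comm]
    congr 2
    ext j
    simp [Pi.single_apply, eq_comm]
  have haff : Aff (fun x => ℓ x + (ℓ x' + 1)) := by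
    intro a b c
    simp only [map_add]
    have := zadd (ℓ x' + 1)
    linear_combination - this
  have hsub : γ ⊆ univ.filter fun x => ℓ x + (ℓ x' + 1) = 1 := by
    intro x hx
    rw [Finset.mem_filter]
    refine ⟨Finset.mem_univ _, ?_⟩
    have : ℓ (x + x') = 0 := hℓW (hD hx hx')
    rw [map_add] at this
    linear_combination this
  have hnc : ∃ x y, (fun x => ℓ x + (ℓ x' + 1)) x ≠ (fun x => ℓ x + (ℓ x' + 1)) y := by
    refine ⟨x' + y, 0, ?_⟩
    simp only [map_zero]
    intro h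
    apply hℓ
    linear_combination h
  have hc := card_one haff hnc
  have heq : γ = univ.filter fun x => ℓ x + (ℓ x' + 1) = 1 := by
    apply Finset.eq_of_subset_of_card_le hsub
    omega
  refine ⟨fun i => ℓ (Pi.single i 1), ℓ x' + 1, ?_, ?_⟩
  · intro h0
    apply hℓ
    rw [hd, h0, zero_dot]
  · intro x
    rw [← hd]
    unfold F
    by_cases hx : x ∈ γ
    · rw [if_pos hx]
      rw [heq, Finset.mem_filter] at hx
      exact hx.2.symm
    · rw [if_neg hx]
      rcases z01 (ℓ x + (ℓ x' + 1)) with h | h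
      · exact h.symm
      · exfalso; apply hx; rw [heq, Finset.mem_filter]; exact ⟨Finset.mem_univ _, h⟩

theorem dot_comm (w x : V n) : dot w x = dot x w := by
  simp [dot, mul_comm]

theorem sum_dot (w v : V n) : ∑ x, chi (dot w x) * chi (dot v x) = if w = v then 2 ^ n else 0 := by
  rw [← orth w v]
  apply Finset.sum_congr rfl
  intro x _
  rw [dot_comm w x, dot_comm v x]

theorem hyper_unique (C : Finset (Finset (V n))) (P : (V n → V n) → Prop)
    (hP : ∀ g, P g → Function.Injective g ∧ ∀ γ ∈ C, γ.image g ∈ C)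
    (h2 : ∀ x y x' y' : V n, x ≠ y → x' ≠ y' → ∃ g, P g ∧ g x = x' ∧ g y = y')
    (hn : 1 ≤ n)
    (hC : ∀ γ ∈ C, ∃ w : V n, ∃ c : ZMod 2, w ≠ 0 ∧ ∀ x, F γ x = dot w x + c)
    (hne : C.Nonempty) {δ : Finset (V n)} {w₀ : V n} {c₀ : ZMod 2} (hw₀ : w₀ ≠ 0)
    (hδ : ∀ x, F δ x = dot w₀ x + c₀) : δ ∈ C := by
  classical
  have hFinj : ∀ γ γ' : Finset (V n), (∀ x, F γ x = F γ' x) → γ = γ' := by
    intro γ γ' h
    ext x
    rw [mem_iff_F, mem_iff_F, h]
  have hFimg : ∀ (g : V n → V n), Function.Injective g → ∀ (γ : Finset (V n)) (x : V n),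
      F (γ.image g) (g x) = F γ x := by
    intro g hg γ x
    unfold F
    by_cases h : x ∈ γ
    · rw [if_pos h, if_pos (Finset.mem_image_of_mem g h)]
    · rw [if_neg h, if_neg]
      intro h'
      obtain ⟨y, hy, hyx⟩ := Finset.mem_image.1 h'
      exact h (hg hyx ▸ hy)
  have hbij : ∀ g, P g → ∀ (q : Finset (V n) → ℤ), ∑ γ ∈ C, q (γ.image g) = ∑ γ ∈ C, q γ := by
    intro g hg q
    have hinj : Set.InjOn (fun γ : Finset (V n) => γ.image g) C :=
      fun a _ b _ hab => Finset.image_injective (hP g hg).1 hab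
    have himg : C.image (fun γ => γ.image g) = C := by
      apply Finset.eq_of_subset_of_card_le
      · intro γ hγ
        obtain ⟨γ', hγ', rfl⟩ := Finset.mem_image.1 hγ
        exact (hP g hg).2 γ' hγ'
      · rw [Finset.card_image_of_injOn hinj]
    conv_rhs => rw [← himg]
    rw [Finset.sum_image hinj]
  -- the one point and two point sums
  have hR : ∀ x y : V n, ∑ γ ∈ C, chi (F γ x) = ∑ γ ∈ C, chi (F γ y) := by
    intro x y
    have h1 : ∃ g, P g ∧ g x = y := by
      obtain ⟨i⟩ : Nonempty (Fin n) := ⟨⟨0, hn⟩⟩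
      have hne1 : ∀ z : V n, z ≠ z + Pi.single i 1 := by
        intro z h
        have := congrFun h i
        rw [Pi.add_apply, Pi.single_eq_same] at this
        have h4 : (1 : ZMod 2) = 0 := by linear_combination - this
        exact absurd h4 (by decide)
      obtain ⟨g, h1, h2, _⟩ := h2 x (x + Pi.single i 1) y (y + Pi.single i 1) (hne1 x) (hne1 y)
      exact ⟨g, h1, h2⟩
    obtain ⟨g, hg, rfl⟩ := h1
    rw [← hbij g hg (fun γ => chi (F γ (g x)))]
    apply Finset.sum_congr rfl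
    intro γ _
    rw [hFimg g (hP g hg).1]
  have hT : ∀ x y x' y' : V n, x ≠ y → x' ≠ y' →
      ∑ γ ∈ C, chi (F γ x) * chi (F γ y) = ∑ γ ∈ C, chi (F γ x') * chi (F γ y') := by
    intro x y x' y' hxy hxy'
    obtain ⟨g, hg, rfl, rfl⟩ := h2 x y x' y' hxy hxy'
    rw [← hbij g hg (fun γ => chi (F γ (g x)) * chi (F γ (g y)))]
    apply Finset.sum_congr rfl
    intro γ _
    rw [hFimg g (hP g hg).1, hFimg g (hP g hg).1]
  -- the transform
  obtain ⟨S, hS⟩ : ∃ S : Finset (V n) → V n → ℤ, ∀ γ w, S γ w = ∑ x, chi (dot w x) * chi (F γ x) :=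
    ⟨_, fun _ _ => rfl⟩
  have hSval : ∀ (γ : Finset (V n)) (v : V n) (c : ZMod 2), (∀ x, F γ x = dot v x + c) →
      ∀ w, S γ w = if w = v then chi c * 2 ^ n else 0 := by
    intro γ v c h w
    rw [hS]
    simp only [h, chi_add, ← mul_assoc]
    rw [← Finset.sum_mul, sum_dot]
    split_ifs <;> ring
  have hsum0 : ∀ w : V n, w ≠ 0 → ∑ x, chi (dot w x) = 0 := by
    intro w hw
    have := sum_dot w 0
    rw [if_neg hw] at this
    simpa [zero_dot, chi_zero] using this
  have ha : ∀ w : V n, w ≠ 0 → ∑ γ ∈ C, S γ w = 0 := by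
    intro w hw
    simp only [hS]
    rw [Finset.sum_comm]
    simp only [← Finset.mul_sum]
    rw [Finset.sum_congr rfl fun x _ => by rw [hR x 0], ← Finset.sum_mul, hsum0 w hw, zero_mul]
  obtain ⟨τ, hτ⟩ : ∃ τ : ℤ, ∀ x y : V n, x ≠ y → ∑ γ ∈ C, chi (F γ x) * chi (F γ y) = τ := by
    obtain ⟨i⟩ : Nonempty (Fin n) := ⟨⟨0, hn⟩⟩
    refine ⟨∑ γ ∈ C, chi (F γ 0) * chi (F γ (Pi.single i 1)), fun x y hxy => ?_⟩
    apply hT x y _ _ hxy
    intro h
    have := congrFun h i
    rw [Pi.single_eq_same, Pi.zero_apply] at this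
    exact absurd this (by decide)
  have hb : ∀ w : V n, w ≠ 0 → ∑ γ ∈ C, S γ w ^ 2 = 2 ^ n * ((C.card : ℤ) - τ) := by
    intro w hw
    have h3 : ∀ γ, S γ w ^ 2 = ∑ x, ∑ y, chi (dot w x) * chi (dot w y) *
        (chi (F γ x) * chi (F γ y)) := by
      intro γ
      rw [hS, sq, Finset.sum_mul_sum]
      apply Finset.sum_congr rfl
      intro x _
      apply Finset.sum_congr rfl
      intro y _
      ring
    simp only [h3]
    rw [Finset.sum_comm]
    have h4 : ∀ x : V n, ∑ γ ∈ C, ∑ y, chi (dot w x) * chi (dot w y) *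
        (chi (F γ x) * chi (F γ y)) = (C.card : ℤ) - τ := by
      intro x
      rw [Finset.sum_comm]
      simp only [← Finset.mul_sum]
      have h5 : ∀ y : V n, chi (dot w x) * chi (dot w y) * ∑ γ ∈ C, chi (F γ x) * chi (F γ y) =
          chi (dot w x) * chi (dot w y) * τ + if x = y then ((C.card : ℤ) - τ) else 0 := by
        intro y
        by_cases hxy : x = y
        · subst hxy
          rw [if_pos rfl, chi_mul_self]
          simp only [chi_mul_self, Finset.sum_const, nsmul_eq_mul, mul_one]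
          ring
        · rw [if_neg hxy, hτ x y hxy, add_zero]
      rw [Finset.sum_congr rfl fun y _ => h5 y, Finset.sum_add_distrib, Finset.sum_ite_eq,
        if_pos (Finset.mem_univ _), ← Finset.sum_mul, ← Finset.mul_sum, hsum0 w hw]
      ring
    rw [Finset.sum_congr rfl fun x _ => h4 x, Finset.sum_const, Finset.card_univ, card_V]
    simp
  -- every direction occurs
  obtain ⟨γ₁, hγ₁⟩ := hne
  obtain ⟨w₁, c₁, hw₁, h₁⟩ := hC γ₁ hγ₁
  have hp1 : 0 < ∑ γ ∈ C, S γ w₁ ^ 2 := by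
    apply Finset.sum_pos'
    · intro γ _; positivity
    · refine ⟨γ₁, hγ₁, ?_⟩
      rw [hSval γ₁ w₁ c₁ h₁, if_pos rfl]
      rcases z01 c₁ with h | h <;> rw [h]
      · rw [chi_zero]; positivity
      · rw [chi_one]; positivity
  rw [hb w₁ hw₁, ← hb w₀ hw₀] at hp1
  obtain ⟨γ₂, hγ₂, h2'⟩ : ∃ γ ∈ C, S γ w₀ ≠ 0 := by
    by_contra hall
    push Not at hall
    rw [Finset.sum_eq_zero (fun γ hγ => by rw [hall γ hγ]; norm_num)] at hp1
    exact lt_irrefl _ hp1
  have hval : ∀ γ ∈ C, S γ w₀ ≠ 0 → ∃ c, ∀ x, F γ x = dot w₀ x + c := by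
    intro γ hγ h
    obtain ⟨w, c, _, h'⟩ := hC γ hγ
    rw [hSval γ w c h'] at h
    by_cases hw : w₀ = w
    · subst hw; exact ⟨c, h'⟩
    · rw [if_neg hw] at h; exact absurd rfl h
  obtain ⟨c₂, hc₂⟩ := hval γ₂ hγ₂ h2'
  by_contra hδC
  -- then only one of the two parallel hyperplanes occurs
  have h0 := ha w₀ hw₀
  have hone : ∑ γ ∈ C, S γ w₀ = S γ₂ w₀ := by
    apply Finset.sum_eq_single_of_mem γ₂ hγ₂
    intro γ hγ hne2
    by_contra hne3
    obtain ⟨c, hc⟩ := hval γ hγ hne3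
    have hcc : c = c₂ := by
      have hc0 : c ≠ c₀ := by
        rintro rfl
        exact hδC ((hFinj γ δ fun x => by rw [hc, hδ]) ▸ hγ)
      have hc20 : c₂ ≠ c₀ := by
        rintro rfl
        exact hδC ((hFinj γ₂ δ fun x => by rw [hc₂, hδ]) ▸ hγ₂)
      revert hc0 hc20
      clear * -
      revert c c₂ c₀
      decide
    subst hcc
    exact hne2 (hFinj γ γ₂ fun x => by rw [hc, hc₂])
  rw [hone] at h0
  exact h2' h0

end Pool.Agent.H39.SIT
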